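import Pool.Agent.H510.SM.Ta

/-!
Dirichlet polynomials whose coefficients grow at most by a constant factor along multiplication by primes: convolutions.
-/

set_option autoImplicit false

open Complex Filter Topology MeasureTheory Finset
open Pool.Agent.Q97.UM (dp N2 cv)

namespace Pool.Agent.H510.MB

open Pool.Agent.H510.SM (sg sg_nonneg sg_mul anti_sum_le Sz Sz_le Sz_nonneg sum_sg)

noncomputable section

/-- controlled growth of the coefficients, supported on numbers without prime factors up to `B` -/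
structure GD (A : ℝ) (B N : ℕ) (r : ℕ → ℂ) : Prop where
  supp : ∀ n, r n ≠ 0 → 1 ≤ n ∧ n ≤ N
  low : ∀ n, r n ≠ 0 → ∀ p : ℕ, p.Prime → p ∣ n → B < p
  gr : ∀ p m : ℕ, p.Prime → 1 ≤ m → ‖r (p * m)‖ ≤ A * ‖r m‖

/-- convolution with an arbitrary sequence -/
theorem conv_le (β : ℝ) (Y N : ℕ) (e r : ℕ → ℂ) (he : ∀ n, e n ≠ 0 → n ≤ Y) (hr : ∀ n, r n ≠ 0 → n ≤ N) :
    N2 (Y * N) (cv e r) ≤ (∑ x ∈ Icc 1 Y, sg β x * (‖e x‖ ^ 2 * (x : ℝ) ^ β / x)) * ∑ y ∈ Icc 1 N, sg β y * (‖r y‖ ^ 2 / y) := by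
  have h1 : ∀ m ∈ Icc 1 (Y * N), ‖cv e r m‖ ^ 2 / m ≤
      ∑ p ∈ m.divisorsAntidiagonal, (sg β p.1 * (‖e p.1‖ ^ 2 * (p.1 : ℝ) ^ β / p.1)) * (sg β p.2 * (‖r p.2‖ ^ 2 / p.2)) := by
    intro m hm
    rw [Finset.mem_Icc] at hm
    have hm0 : (0 : ℝ) < m := by exact_mod_cast hm.1
    have e1 : ‖cv e r m‖ ≤ ∑ p ∈ m.divisorsAntidiagonal, ‖e p.1‖ * ‖r p.2‖ := by
      unfold cv
      refine (norm_sum_le _ _).trans (le_of_eq ?_)
      refine Finset.sum_congr rfl fun p _ => ?_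
      rw [norm_mul]
    have hpos : ∀ p ∈ m.divisorsAntidiagonal, (0 : ℝ) < p.1 ∧ (0 : ℝ) < p.2 := by
      intro p hp
      rw [Nat.mem_divisorsAntidiagonal] at hp
      have h10 : p.1 ≠ 0 := by
        intro h
        rw [h, zero_mul] at hp
        exact hp.2 hp.1.symm
      have h20 : p.2 ≠ 0 := by
        intro h
        rw [h, mul_zero] at hp
        exact hp.2 hp.1.symm
      exact ⟨by exact_mod_cast Nat.pos_of_ne_zero h10, by exact_mod_cast Nat.pos_of_ne_zero h20⟩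
    have e2 : (∑ p ∈ m.divisorsAntidiagonal, ‖e p.1‖ * ‖r p.2‖) ^ 2 ≤
        (∑ p ∈ m.divisorsAntidiagonal, (p.1 : ℝ) ^ (-β)) * ∑ p ∈ m.divisorsAntidiagonal, (‖e p.1‖ ^ 2 * (p.1 : ℝ) ^ β) * ‖r p.2‖ ^ 2 := by
      have h2 := Finset.sum_mul_sq_le_sq_mul_sq m.divisorsAntidiagonal (fun p => (p.1 : ℝ) ^ (-β / 2))
        (fun p => (p.1 : ℝ) ^ (β / 2) * (‖e p.1‖ * ‖r p.2‖))
      have h3 : ∑ p ∈ m.divisorsAntidiagonal, (p.1 : ℝ) ^ (-β / 2) * ((p.1 : ℝ) ^ (β / 2) * (‖e p.1‖ * ‖r p.2‖)) =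
          ∑ p ∈ m.divisorsAntidiagonal, ‖e p.1‖ * ‖r p.2‖ := by
        refine Finset.sum_congr rfl fun p hp => ?_
        rw [← mul_assoc, ← Real.rpow_add (hpos p hp).1, show -β / 2 + β / 2 = 0 by ring, Real.rpow_zero, one_mul]
      have h4 : ∑ p ∈ m.divisorsAntidiagonal, ((p.1 : ℝ) ^ (β / 2) * (‖e p.1‖ * ‖r p.2‖)) ^ 2 =
          ∑ p ∈ m.divisorsAntidiagonal, (‖e p.1‖ ^ 2 * (p.1 : ℝ) ^ β) * ‖r p.2‖ ^ 2 := by
        refine Finset.sum_congr rfl fun p hp => ?_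
        have : ((p.1 : ℝ) ^ (β / 2)) ^ 2 = (p.1 : ℝ) ^ β := by
          rw [← Real.rpow_natCast, ← Real.rpow_mul (hpos p hp).1.le]
          congr 1
          push_cast
          ring
        rw [mul_pow, mul_pow, this]
        ring
      have h5 : ∑ p ∈ m.divisorsAntidiagonal, ((p.1 : ℝ) ^ (-β / 2)) ^ 2 = ∑ p ∈ m.divisorsAntidiagonal, (p.1 : ℝ) ^ (-β) := by
        refine Finset.sum_congr rfl fun p hp => ?_
        rw [← Real.rpow_natCast, ← Real.rpow_mul (hpos p hp).1.le]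
        congr 1
        push_cast
        ring
      rw [h3, h4, h5] at h2
      exact h2
    have e3 : ∑ p ∈ m.divisorsAntidiagonal, (p.1 : ℝ) ^ (-β) = sg β m := by
      unfold sg
      rw [← Nat.sum_divisorsAntidiagonal (fun d _ => (d : ℝ) ^ (-β))]
    rw [e3] at e2
    have e4 : ‖cv e r m‖ ^ 2 ≤ sg β m * ∑ p ∈ m.divisorsAntidiagonal, (‖e p.1‖ ^ 2 * (p.1 : ℝ) ^ β) * ‖r p.2‖ ^ 2 :=
      (pow_le_pow_left₀ (norm_nonneg _) e1 2).trans e2
    rw [div_le_iff₀ hm0]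
    refine e4.trans ?_
    rw [Finset.mul_sum, Finset.sum_mul]
    refine Finset.sum_le_sum fun p hp => ?_
    obtain ⟨h11, h21⟩ := hpos p hp
    rw [Nat.mem_divisorsAntidiagonal] at hp
    have h5 : (m : ℝ) = p.1 * p.2 := by rw [← hp.1]; push_cast; ring
    have h6 : sg β m ≤ sg β p.1 * sg β p.2 := by rw [← hp.1]; exact sg_mul β _ _
    have h7 : 0 ≤ (‖e p.1‖ ^ 2 * (p.1 : ℝ) ^ β) * ‖r p.2‖ ^ 2 := by positivity
    calc sg β m * ((‖e p.1‖ ^ 2 * (p.1 : ℝ) ^ β) * ‖r p.2‖ ^ 2) ≤ (sg β p.1 * sg β p.2) * ((‖e p.1‖ ^ 2 * (p.1 : ℝ) ^ β) * ‖r p.2‖ ^ 2) :=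
          mul_le_mul_of_nonneg_right h6 h7
      _ = (sg β p.1 * (‖e p.1‖ ^ 2 * (p.1 : ℝ) ^ β / p.1)) * (sg β p.2 * (‖r p.2‖ ^ 2 / p.2)) * m := by
          rw [h5]
          field_simp
  unfold N2
  refine (Finset.sum_le_sum h1).trans ?_
  have hF0 : ∀ p : ℕ × ℕ, 0 ≤ (sg β p.1 * (‖e p.1‖ ^ 2 * (p.1 : ℝ) ^ β / p.1)) * (sg β p.2 * (‖r p.2‖ ^ 2 / p.2)) := by
    intro p
    have := sg_nonneg β p.1
    have := sg_nonneg β p.2
    positivity
  have h2 := anti_sum_le (Y * N) Y N _ hF0 (by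
    intro m _ p _ hne
    constructor
    · apply he
      intro h3
      apply hne
      rw [h3]
      simp
    · apply hr
      intro h3
      apply hne
      rw [h3]
      simp)
  simp only at h2
  rw [← Finset.sum_mul_sum] at h2
  exact h2

/-- growth along multiplication by a number without prime factors up to `B` -/
theorem GD.grow {A : ℝ} (hA : 0 ≤ A) {B N : ℕ} {r : ℕ → ℂ} (h : GD A B N r) (γ : ℝ) (hγ : A ≤ (B : ℝ) ^ γ) (hB : 1 ≤ B) (hγ0 : 0 ≤ γ) :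
    ∀ d m : ℕ, 1 ≤ d → 1 ≤ m → ‖r (d * m)‖ ≤ (d : ℝ) ^ γ * ‖r m‖ := by
  intro d
  induction d using Nat.recOnMul with
  | zero => intro m hd; omega
  | one => intro m _ _; simp
  | prime p hp =>
    intro m _ hm
    by_cases h0 : r (p * m) = 0
    · rw [h0, norm_zero]
      positivity
    · have h1 := h.low _ h0 p hp (dvd_mul_right p m)
      have h2 := h.gr p m hp hm
      have h3 : (B : ℝ) ^ γ ≤ (p : ℝ) ^ γ := Real.rpow_le_rpow (by positivity) (by exact_mod_cast h1.le) hγ0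
      refine h2.trans ?_
      apply mul_le_mul_of_nonneg_right (hγ.trans h3) (norm_nonneg _)
  | mul a b iha ihb =>
    intro m hab hm
    have ha : 1 ≤ a := Nat.pos_of_ne_zero (by rintro rfl; simp at hab)
    have hb : 1 ≤ b := Nat.pos_of_ne_zero (by rintro rfl; simp at hab)
    have h1 := iha (b * m) ha (Nat.mul_pos hb hm)
    have h2 := ihb m hb hm
    rw [mul_assoc]
    refine h1.trans ?_
    push_cast
    rw [Real.mul_rpow (Nat.cast_nonneg _) (Nat.cast_nonneg _), mul_assoc]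
    exact mul_le_mul_of_nonneg_left h2 (by positivity)

/-- the divisor sum on average -/
theorem GD.sum_sg {A : ℝ} (hA : 0 ≤ A) {B N : ℕ} {r : ℕ → ℂ} (h : GD A B N r) (β : ℝ) (hβ : 0 < β) (hAB : A ≤ (B : ℝ) ^ (β / 4)) (hB : 1 ≤ B) :
    ∑ y ∈ Icc 1 N, sg β y * (‖r y‖ ^ 2 / y) ≤ Sz (β / 2) * N2 N r := by
  have hg := h.grow hA (β / 4) hAB hB (by positivity)
  have h1 : ∀ y ∈ Icc 1 N, sg β y * (‖r y‖ ^ 2 / y) ≤
      ∑ p ∈ y.divisorsAntidiagonal, (p.1 : ℝ) ^ (-(1 + β / 2)) * (‖r p.2‖ ^ 2 / p.2) := by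
    intro y hy
    unfold sg
    rw [Finset.sum_mul, ← Nat.sum_divisorsAntidiagonal (fun d _ => (d : ℝ) ^ (-β) * (‖r y‖ ^ 2 / y))]
    refine Finset.sum_le_sum fun p hp => ?_
    rw [Nat.mem_divisorsAntidiagonal] at hp
    have h10 : p.1 ≠ 0 := by
      intro h
      rw [h, zero_mul] at hp
      exact hp.2 hp.1.symm
    have h20 : p.2 ≠ 0 := by
      intro h
      rw [h, mul_zero] at hp
      exact hp.2 hp.1.symm
    have h11 : (0 : ℝ) < p.1 := by exact_mod_cast Nat.pos_of_ne_zero h10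
    have h21 : (0 : ℝ) < p.2 := by exact_mod_cast Nat.pos_of_ne_zero h20
    have h3 : ‖r y‖ ≤ (p.1 : ℝ) ^ (β / 4) * ‖r p.2‖ := by
      rw [← hp.1]
      exact hg p.1 p.2 (Nat.pos_of_ne_zero h10) (Nat.pos_of_ne_zero h20)
    have h4 : ‖r y‖ ^ 2 ≤ (p.1 : ℝ) ^ (β / 2) * ‖r p.2‖ ^ 2 := by
      have h5 := pow_le_pow_left₀ (norm_nonneg _) h3 2
      have h6 : ((p.1 : ℝ) ^ (β / 4)) ^ 2 = (p.1 : ℝ) ^ (β / 2) := by
        rw [← Real.rpow_natCast, ← Real.rpow_mul h11.le]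
        congr 1
        push_cast
        ring
      rw [mul_pow, h6] at h5
      exact h5
    have h5 : (y : ℝ) = p.1 * p.2 := by rw [← hp.1]; push_cast; ring
    calc (p.1 : ℝ) ^ (-β) * (‖r y‖ ^ 2 / y) ≤ (p.1 : ℝ) ^ (-β) * ((p.1 : ℝ) ^ (β / 2) * ‖r p.2‖ ^ 2 / y) := by
          apply mul_le_mul_of_nonneg_left _ (by positivity)
          exact div_le_div_of_nonneg_right h4 (Nat.cast_nonneg _)
      _ = (p.1 : ℝ) ^ (-(1 + β / 2)) * (‖r p.2‖ ^ 2 / p.2) := by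
          rw [h5, show -(1 + β / 2) = (-β + β / 2) - 1 by ring, Real.rpow_sub_one h11.ne', Real.rpow_add h11]
          field_simp
  refine (Finset.sum_le_sum h1).trans ((anti_sum_le N N N _ (fun p => by positivity) ?_).trans ?_)
  · intro m hm p hp _
    rw [Finset.mem_Icc] at hm
    rw [Nat.mem_divisorsAntidiagonal] at hp
    have h2 : p.1 ∣ m := ⟨p.2, hp.1.symm⟩
    have h3 : p.2 ∣ m := ⟨p.1, by rw [mul_comm]; exact hp.1.symm⟩
    exact ⟨(Nat.le_of_dvd (by omega) h2).trans hm.2, (Nat.le_of_dvd (by omega) h3).trans hm.2⟩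
  · simp only
    rw [← Finset.sum_mul_sum]
    have h2 := Sz_le (β / 2) (by positivity) N
    have h3 : ∑ y ∈ Icc 1 N, ‖r y‖ ^ 2 / y = N2 N r := rfl
    rw [h3]
    exact mul_le_mul_of_nonneg_right h2 (Pool.Agent.Q97.UM.N2_nonneg _ _)

/-- the tail bound -/
theorem GD.tail {A : ℝ} (hA : 0 ≤ A) {B N : ℕ} {r : ℕ → ℂ} (h : GD A B N r) (β : ℝ) (hβ : 0 < β) (hAB : A ≤ (B : ℝ) ^ (β / 4)) (hB : 1 ≤ B)
    (N₀ Y : ℕ) (hN₀ : 1 ≤ N₀) (e : ℕ → ℂ) (he : ∀ n, ‖e n‖ ≤ if N₀ < n ∧ n ≤ Y then (n : ℝ) ^ (-(2 * β)) else 0) :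
    N2 (Y * N) (cv e r) ≤ Sz β ^ 2 * Sz (β / 2) * (N₀ : ℝ) ^ (-(2 * β)) * N2 N r := by
  have hN₀' : (0 : ℝ) < N₀ := by exact_mod_cast hN₀
  have h1 := conv_le β Y N e r (by
    intro n hn
    by_contra hcon
    have h2 := he n
    rw [if_neg (fun h3 => hcon h3.2)] at h2
    exact hn (norm_le_zero_iff.1 h2)) (fun n hn => (h.supp n hn).2)
  refine h1.trans ?_
  have h2 := h.sum_sg hA β hβ hAB hB
  have h3 : ∑ x ∈ Icc 1 Y, sg β x * (‖e x‖ ^ 2 * (x : ℝ) ^ β / x) ≤ (N₀ : ℝ) ^ (-(2 * β)) * Sz β ^ 2 := by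
    refine le_trans ?_ (mul_le_mul_of_nonneg_left (SM.sum_sg β hβ Y) (by positivity))
    rw [Finset.mul_sum]
    refine Finset.sum_le_sum fun x hx => ?_
    rw [Finset.mem_Icc] at hx
    have hx0 : (0 : ℝ) < x := by exact_mod_cast hx.1
    have h4 : ‖e x‖ ^ 2 * (x : ℝ) ^ β / x ≤ (N₀ : ℝ) ^ (-(2 * β)) * (x : ℝ) ^ (-(1 + β)) := by
      by_cases h5 : N₀ < x ∧ x ≤ Y
      · have h6 := he x
        rw [if_pos h5] at h6
        have h7 : ‖e x‖ ^ 2 ≤ (x : ℝ) ^ (-(4 * β)) := by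
          refine (pow_le_pow_left₀ (norm_nonneg _) h6 2).trans (le_of_eq ?_)
          rw [← Real.rpow_natCast, ← Real.rpow_mul hx0.le]
          congr 1
          push_cast
          ring
        have h8 : (N₀ : ℝ) ≤ x := by exact_mod_cast h5.1.le
        calc ‖e x‖ ^ 2 * (x : ℝ) ^ β / x ≤ (x : ℝ) ^ (-(4 * β)) * (x : ℝ) ^ β / x := by gcongr
          _ = (x : ℝ) ^ (-(2 * β)) * (x : ℝ) ^ (-(1 + β)) := by
              rw [show -(1 + β) = -β - 1 by ring, Real.rpow_sub_one hx0.ne', mul_div_assoc', ← Real.rpow_add hx0, ← Real.rpow_add hx0]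
              congr 2
              ring
          _ ≤ (N₀ : ℝ) ^ (-(2 * β)) * (x : ℝ) ^ (-(1 + β)) := by
              apply mul_le_mul_of_nonneg_right _ (by positivity)
              exact Real.rpow_le_rpow_of_nonpos hN₀' h8 (by linarith)
      · have h6 := he x
        rw [if_neg h5] at h6
        have h7 : ‖e x‖ = 0 := le_antisymm h6 (norm_nonneg _)
        rw [h7]
        simp only [ne_eq, OfNat.ofNat_ne_zero, not_false_eq_true, zero_pow, zero_mul, zero_div]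
        positivity
    calc sg β x * (‖e x‖ ^ 2 * (x : ℝ) ^ β / x) ≤ sg β x * ((N₀ : ℝ) ^ (-(2 * β)) * (x : ℝ) ^ (-(1 + β))) :=
          mul_le_mul_of_nonneg_left h4 (sg_nonneg β x)
      _ = _ := by ring
  have h4 : 0 ≤ ∑ y ∈ Icc 1 N, sg β y * (‖r y‖ ^ 2 / y) :=
    Finset.sum_nonneg fun y _ => mul_nonneg (sg_nonneg _ _) (by positivity)
  calc _ ≤ ((N₀ : ℝ) ^ (-(2 * β)) * Sz β ^ 2) * (Sz (β / 2) * N2 N r) := by
        apply mul_le_mul h3 h2 h4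
        positivity
    _ = _ := by ring

/-- squares of primes -/
def sqc (X : ℕ) (n : ℕ) : ℂ := if Nat.sqrt n ≤ X ∧ (Nat.sqrt n).Prime ∧ n = Nat.sqrt n ^ 2 then 1 else 0

theorem sqc_sq (X p : ℕ) (hp : p.Prime) (hX : p ≤ X) : sqc X (p ^ 2) = 1 := by
  unfold sqc
  rw [Nat.sqrt_eq']
  rw [if_pos ⟨hX, hp, rfl⟩]

theorem sqc_supp (X n : ℕ) (h : sqc X n ≠ 0) : ∃ p : ℕ, p.Prime ∧ p ≤ X ∧ n = p ^ 2 := by
  unfold sqc at h
  split_ifs at h with h1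
  · exact ⟨Nat.sqrt n, h1.2.1, h1.1, h1.2.2⟩
  · exact absurd rfl h

/-- convolution with the squares of the primes -/
theorem GD.sq {A : ℝ} (hA : 0 ≤ A) : ∃ C : ℝ, 0 ≤ C ∧ ∀ {B N : ℕ} {r : ℕ → ℂ}, GD A B N r → A ≤ (B : ℝ) ^ ((1 / 4 : ℝ) / 4) → 1 ≤ B → ∀ X : ℕ,
    N2 (X ^ 2 * N) (cv (sqc X) r) ≤ C * N2 N r := by
  refine ⟨3 * Sz (1 / 2) * Sz (1 / 4 / 2), by have := Sz_nonneg (1 / 2); have := Sz_nonneg (1 / 4 / 2); positivity, ?_⟩
  intro B N r h hAB hB X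
  have h1 := conv_le (1 / 4) (X ^ 2) N (sqc X) r (by
    intro n hn
    obtain ⟨p, hp, hpX, rfl⟩ := sqc_supp X n hn
    exact Nat.pow_le_pow_left hpX 2) (fun n hn => (h.supp n hn).2)
  refine h1.trans ?_
  have h2 := h.sum_sg hA (1 / 4) (by norm_num) hAB hB
  have h3 : ∑ x ∈ Icc 1 (X ^ 2), sg (1 / 4) x * (‖sqc X x‖ ^ 2 * (x : ℝ) ^ (1 / 4 : ℝ) / x) ≤ 3 * Sz (1 / 2) := by
    have e1 : ∑ x ∈ Icc 1 (X ^ 2), sg (1 / 4) x * (‖sqc X x‖ ^ 2 * (x : ℝ) ^ (1 / 4 : ℝ) / x) ≤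
        ∑ x ∈ (Icc 1 X).image (fun p => p ^ 2), sg (1 / 4) x * (‖sqc X x‖ ^ 2 * (x : ℝ) ^ (1 / 4 : ℝ) / x) := by
      rw [← Finset.sum_filter_ne_zero]
      refine Finset.sum_le_sum_of_subset_of_nonneg ?_ fun x _ _ => mul_nonneg (sg_nonneg _ _) (by positivity)
      intro x hx
      rw [Finset.mem_filter] at hx
      have hne : sqc X x ≠ 0 := by
        intro h4
        apply hx.2
        rw [h4]
        simp
      obtain ⟨p, hp, hpX, rfl⟩ := sqc_supp X x hne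
      exact Finset.mem_image.2 ⟨p, Finset.mem_Icc.2 ⟨hp.one_lt.le, hpX⟩, rfl⟩
    refine e1.trans ?_
    rw [Finset.sum_image (by
      intro x _ y _ hxy
      exact Nat.pow_left_injective (n := 2) (by norm_num) hxy)]
    refine le_trans ?_ (mul_le_mul_of_nonneg_left (Sz_le (1 / 2) (by norm_num) X) (by norm_num))
    rw [Finset.mul_sum]
    refine Finset.sum_le_sum fun p hp => ?_
    rw [Finset.mem_Icc] at hp
    have hp0 : (0 : ℝ) < p := by exact_mod_cast hp.1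
    by_cases hpp : sqc X (p ^ 2) = 0
    · rw [hpp]
      simp only [norm_zero, ne_eq, OfNat.ofNat_ne_zero, not_false_eq_true, zero_pow, zero_mul, zero_div, mul_zero]
      positivity
    · obtain ⟨q, hq, hqX, hqp⟩ := sqc_supp X _ hpp
      have hqp' : p = q := Nat.pow_left_injective (n := 2) (by norm_num) hqp
      subst hqp'
      rw [sqc_sq X p hq hp.2]
      have h5 : sg (1 / 4) (p ^ 2) ≤ 3 := by
        unfold sg
        rw [Nat.divisors_prime_pow hq, Finset.sum_map]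
        have h6 : ∀ i ∈ Finset.range (2 + 1), ((⟨(p ^ ·), Nat.pow_right_injective hq.two_le⟩ : ℕ ↪ ℕ) i : ℝ) ^ (-(1 / 4 : ℝ)) ≤ 1 := by
          intro i _
          apply Real.rpow_le_one_of_one_le_of_nonpos _ (by norm_num)
          exact_mod_cast Nat.one_le_pow _ _ hq.pos
        refine (Finset.sum_le_sum h6).trans ?_
        simp
      have h6 : ((p ^ 2 : ℕ) : ℝ) ^ (1 / 4 : ℝ) = (p : ℝ) ^ (1 / 2 : ℝ) := by
        push_cast
        rw [← Real.rpow_natCast, ← Real.rpow_mul hp0.le]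
        norm_num
      rw [h6]
      have h7 : ‖(1 : ℂ)‖ ^ 2 * (p : ℝ) ^ (1 / 2 : ℝ) / ((p ^ 2 : ℕ) : ℝ) = (p : ℝ) ^ (-(1 + 1 / 2 : ℝ)) := by
        rw [norm_one, one_pow, one_mul, show -(1 + 1 / 2 : ℝ) = 1 / 2 - 1 - 1 by norm_num, Real.rpow_sub_one hp0.ne', Real.rpow_sub_one hp0.ne']
        push_cast
        field_simp
      rw [h7]
      exact mul_le_mul_of_nonneg_right h5 (by positivity)
  have h4 : 0 ≤ ∑ y ∈ Icc 1 N, sg (1 / 4) y * (‖r y‖ ^ 2 / y) :=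
    Finset.sum_nonneg fun y _ => mul_nonneg (sg_nonneg _ _) (by positivity)
  have hS := Sz_nonneg (1 / 2)
  calc _ ≤ (3 * Sz (1 / 2)) * (Sz (1 / 4 / 2) * N2 N r) := mul_le_mul h3 h2 h4 (by positivity)
    _ = _ := by ring

end

end Pool.Agent.H510.MB
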