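import Pool.Agent.H510.MB.Mb
import Pool.Graph.R_pool_sql_team_seeded_3997aac3.Q14.UM.EK

/-!
Truncated exponentials of prime sums: the growth of the coefficients.
-/

set_option autoImplicit false

open Complex Filter Topology MeasureTheory Finset
open Pool.Agent.Q97.UM (dp N2 cv cvp te XB PB qb RB' eb JB EKd PA)

namespace Pool.Agent.H510.MB

noncomputable section

/-- the coefficients of the exponential of a prime sum -/
def W (q : ℕ → ℂ) (n : ℕ) : ℂ := n.factorization.prod fun p k => q p ^ k / (k.factorial : ℂ)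

theorem W_mul (q : ℕ → ℂ) (p m : ℕ) (hp : p.Prime) (hm : m ≠ 0) :
    W q (p * m) * ((m.factorization p : ℂ) + 1) = q p * W q m := by
  classical
  unfold W
  have hf : (p * m).factorization = Finsupp.single p 1 + m.factorization := by
    rw [Nat.factorization_mul hp.ne_zero hm, hp.factorization]
  have h1 : (p * m).factorization.prod (fun p k => q p ^ k / (k.factorial : ℂ)) =
      ∏ x ∈ insert p m.primeFactors, q x ^ (p * m).factorization x / (((p * m).factorization x).factorial : ℂ) := by
    unfold Finsupp.prod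
    have : (p * m).factorization.support = insert p m.primeFactors := by
      rw [Nat.support_factorization, Nat.primeFactors_mul hp.ne_zero hm, hp.primeFactors]
      rfl
    rw [this]
  have h2 : m.factorization.prod (fun p k => q p ^ k / (k.factorial : ℂ)) =
      ∏ x ∈ insert p m.primeFactors, q x ^ m.factorization x / ((m.factorization x).factorial : ℂ) := by
    rw [Finsupp.prod_of_support_subset]
    · rw [Nat.support_factorization]
      exact Finset.subset_insert _ _
    · intro x _
      simp
  rw [h1, h2, ← Finset.mul_prod_erase _ _ (Finset.mem_insert_self p m.primeFactors),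
    ← Finset.mul_prod_erase (insert p m.primeFactors) (fun x => q x ^ m.factorization x / ((m.factorization x).factorial : ℂ))
      (Finset.mem_insert_self p m.primeFactors)]
  have h3 : ∏ x ∈ (insert p m.primeFactors).erase p, q x ^ (p * m).factorization x / (((p * m).factorization x).factorial : ℂ) =
      ∏ x ∈ (insert p m.primeFactors).erase p, q x ^ m.factorization x / ((m.factorization x).factorial : ℂ) := by
    refine Finset.prod_congr rfl fun x hx => ?_
    have hxp : x ≠ p := (Finset.mem_erase.1 hx).1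
    rw [hf]
    simp [Finsupp.single_apply, Ne.symm hxp]
  rw [h3]
  have h4 : (p * m).factorization p = m.factorization p + 1 := by
    rw [hf]
    simp
    omega
  rw [h4, Nat.factorial_succ, pow_succ]
  have h5 : ((m.factorization p).factorial : ℂ) ≠ 0 := by exact_mod_cast Nat.factorial_ne_zero _
  have h6 : ((m.factorization p : ℂ) + 1) ≠ 0 := by exact_mod_cast Nat.succ_ne_zero (m.factorization p)
  push_cast
  field_simp

open ArithmeticFunction in
theorem cvp_eq (q : ℕ → ℂ) (hq : ∀ n, q n ≠ 0 → n.Prime) (r : ℕ) : ∀ n : ℕ, n ≠ 0 →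
    cvp q r n = if cardFactors n = r then (r.factorial : ℂ) * W q n else 0 := by
  induction r with
  | zero =>
    intro n hn
    unfold cvp
    by_cases h1 : n = 1
    · subst h1
      simp [W]
    · rw [if_neg h1, if_neg]
      rw [cardFactors_eq_zero_iff_eq_zero_or_one]
      omega
  | succ r ih =>
    intro n hn
    have e0 : cvp q (r + 1) n = ∑ p ∈ n.primeFactors, q p * cvp q r (n / p) := by
      change cv q (cvp q r) n = _
      unfold cv
      rw [Nat.sum_divisorsAntidiagonal (fun x y => q x * cvp q r y)]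
      symm
      apply Finset.sum_subset
      · intro p hp
        rw [Nat.mem_divisors]
        exact ⟨Nat.dvd_of_mem_primeFactors hp, hn⟩
      · intro p hp hp2
        rw [Nat.mem_divisors] at hp
        by_cases h : q p = 0
        · rw [h, zero_mul]
        · exact absurd (Nat.mem_primeFactors.2 ⟨hq p h, hp.1, hn⟩) hp2
    rw [e0]
    have e1 : ∀ p ∈ n.primeFactors, q p * cvp q r (n / p) =
        (n.factorization p : ℂ) * (if cardFactors n = r + 1 then (r.factorial : ℂ) * W q n else 0) := by
      intro p hp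
      obtain ⟨hpp, hpn, -⟩ := Nat.mem_primeFactors.1 hp
      obtain ⟨m, rfl⟩ := hpn
      have hm : m ≠ 0 := by
        rintro rfl
        simp at hn
      rw [Nat.mul_div_cancel_left m hpp.pos, ih m hm]
      have hc : cardFactors (p * m) = cardFactors m + 1 := by
        rw [cardFactors_mul hpp.ne_zero hm, cardFactors_apply_prime hpp]
        omega
      have h4 : (p * m).factorization p = m.factorization p + 1 := by
        rw [Nat.factorization_mul hpp.ne_zero hm, hpp.factorization]
        simp
        omega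
      rw [hc, h4]
      by_cases hr : cardFactors m = r
      · rw [if_pos hr, if_pos (by omega)]
        have := W_mul q p m hpp hm
        push_cast
        linear_combination (-(r.factorial : ℂ)) * this
      · rw [if_neg hr, if_neg (by omega), mul_zero, mul_zero]
    rw [Finset.sum_congr rfl e1, ← Finset.sum_mul]
    by_cases hr : cardFactors n = r + 1
    · rw [if_pos hr, if_pos hr]
      have h5 : ∑ p ∈ n.primeFactors, (n.factorization p : ℂ) = ((r + 1 : ℕ) : ℂ) := by
        rw [← hr, cardFactors_eq_sum_factorization]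
        unfold Finsupp.sum
        rw [Nat.support_factorization]
        push_cast
        rfl
      rw [h5, Nat.factorial_succ]
      push_cast
      ring
    · rw [if_neg hr, if_neg hr, mul_zero]

open ArithmeticFunction in
theorem te_eq (q : ℕ → ℂ) (hq : ∀ n, q n ≠ 0 → n.Prime) (R n : ℕ) (hn : n ≠ 0) :
    te q R n = if cardFactors n ≤ R then W q n else 0 := by
  unfold te
  have h1 : ∀ r ∈ Finset.range (R + 1), cvp q r n / (r.factorial : ℂ) = if cardFactors n = r then W q n else 0 := by
    intro r _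
    rw [cvp_eq q hq r n hn]
    have h5 : (r.factorial : ℂ) ≠ 0 := by exact_mod_cast Nat.factorial_ne_zero _
    split_ifs
    · field_simp
    · simp
  rw [Finset.sum_congr rfl h1, Finset.sum_ite_eq]
  by_cases h : cardFactors n ≤ R
  · rw [if_pos h, if_pos (Finset.mem_range.2 (by omega))]
  · rw [if_neg h, if_neg (fun h2 => h (by have := Finset.mem_range.1 h2; omega))]

/-- growth at most by the factor `‖a p‖` -/
def Gr (a : ℕ → ℂ) (f : ℕ → ℂ) : Prop := ∀ p m : ℕ, p.Prime → 1 ≤ m → ‖f (p * m)‖ ≤ ‖a p‖ * ‖f m‖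

open ArithmeticFunction in
theorem Gr_te (q a : ℕ → ℂ) (hq : ∀ n, q n ≠ 0 → n.Prime) (hqa : ∀ n, ‖q n‖ ≤ ‖a n‖) (R : ℕ) : Gr a (te q R) := by
  intro p m hp hm
  have hm0 : m ≠ 0 := by omega
  rw [te_eq q hq R _ (Nat.mul_ne_zero hp.ne_zero hm0), te_eq q hq R m hm0]
  have hc : cardFactors (p * m) = cardFactors m + 1 := by
    rw [cardFactors_mul hp.ne_zero hm0, cardFactors_apply_prime hp]
    omega
  rw [hc]
  by_cases h : cardFactors m + 1 ≤ R
  · rw [if_pos h, if_pos (by omega)]
    have h1 := congrArg norm (W_mul q p m hp hm0)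
    rw [norm_mul, norm_mul] at h1
    have h2 : (1 : ℝ) ≤ ‖((m.factorization p : ℂ) + 1)‖ := by
      have : ((m.factorization p : ℂ) + 1) = ((m.factorization p + 1 : ℕ) : ℂ) := by push_cast; ring
      rw [this, Complex.norm_natCast]
      exact_mod_cast Nat.succ_le_succ (Nat.zero_le _)
    calc ‖W q (p * m)‖ = ‖W q (p * m)‖ * 1 := (mul_one _).symm
      _ ≤ ‖W q (p * m)‖ * ‖((m.factorization p : ℂ) + 1)‖ := by gcongr
      _ = ‖q p‖ * ‖W q m‖ := h1
      _ ≤ ‖a p‖ * ‖W q m‖ := by gcongr; exact hqa p
  · rw [if_neg h, norm_zero]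
    positivity

open Pool.Agent.Q14.UM in
/-- convolution of sequences with disjoint sets of primes -/
theorem Gr_cv {P Q : ℕ → Prop} (hPQ : ∀ p, P p → ¬ Q p) {f g a : ℕ → ℂ} (hf : SP P f) (hg : SP Q g) (hfa : Gr a f) (hga : Gr a g) :
    Gr a (cv f g) := by
  have hco : ∀ u v : ℕ, f u ≠ 0 → g v ≠ 0 → Nat.Coprime u v := by
    intro u v hu hv
    rw [Nat.coprime_iff_gcd_eq_one]
    by_contra h4
    obtain ⟨p, hp, hpd⟩ := Nat.exists_prime_and_dvd h4
    exact hPQ p ((hf u hu).2 p hp (hpd.trans (Nat.gcd_dvd_left _ _))) ((hg v hv).2 p hp (hpd.trans (Nat.gcd_dvd_right _ _)))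
  have huniq : ∀ x y : ℕ, f x ≠ 0 → g y ≠ 0 → cv f g (x * y) = f x * g y := by
    intro x y hx hy
    have hx0 := (hf x hx).1
    have hy0 := (hg y hy).1
    unfold cv
    rw [Finset.sum_eq_single (x, y)]
    · rintro ⟨x', y'⟩ hp hne
      rw [Nat.mem_divisorsAntidiagonal] at hp
      simp only at hp
      by_contra h
      have hx' : f x' ≠ 0 := left_ne_zero_of_mul h
      have hy' : g y' ≠ 0 := right_ne_zero_of_mul h
      apply hne
      have h1 : x ∣ x' := by
        have : x ∣ x' * y' := ⟨y, by rw [hp.1]⟩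
        exact (hco x y' hx hy').dvd_of_dvd_mul_right this
      have h2 : x' ∣ x := by
        have : x' ∣ x * y := ⟨y', by rw [hp.1]⟩
        exact (hco x' y hx' hy).dvd_of_dvd_mul_right this
      have h3 : x = x' := Nat.dvd_antisymm h1 h2
      subst h3
      have h4 := hp.1
      have h5 : y' = y := Nat.eq_of_mul_eq_mul_left (Nat.pos_of_ne_zero hx0) h4
      rw [h5]
    · intro h
      exact absurd (Nat.mem_divisorsAntidiagonal.2 ⟨rfl, Nat.mul_ne_zero hx0 hy0⟩) h
  intro p m hp hm
  by_cases h0 : cv f g (p * m) = 0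
  · rw [h0, norm_zero]
    positivity
  · have h1 := h0
    unfold cv at h1
    obtain ⟨⟨x, y⟩, hxy, hne⟩ := Finset.exists_ne_zero_of_sum_ne_zero h1
    rw [Nat.mem_divisorsAntidiagonal] at hxy
    simp only at hxy hne
    have hx : f x ≠ 0 := left_ne_zero_of_mul hne
    have hy : g y ≠ 0 := right_ne_zero_of_mul hne
    rw [← hxy.1, huniq x y hx hy, norm_mul]
    have hpd : p ∣ x * y := ⟨m, hxy.1⟩
    rcases (Nat.Prime.dvd_mul hp).1 hpd with h2 | h2
    · obtain ⟨x₁, rfl⟩ := h2
      have hx1 : 1 ≤ x₁ := Nat.pos_of_ne_zero (by rintro rfl; exact (hf _ hx).1 (by simp))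
      have h3 := hfa p x₁ hp hx1
      have h4 : f x₁ ≠ 0 := by
        intro h5
        rw [h5, norm_zero, mul_zero] at h3
        exact hx (norm_le_zero_iff.1 h3)
      have h5 : m = x₁ * y := by
        have := hxy.1
        rw [mul_assoc] at this
        exact (Nat.eq_of_mul_eq_mul_left hp.pos this).symm
      rw [h5, huniq x₁ y h4 hy, norm_mul, ← mul_assoc]
      gcongr
    · obtain ⟨y₁, rfl⟩ := h2
      have hy1 : 1 ≤ y₁ := Nat.pos_of_ne_zero (by rintro rfl; exact (hg _ hy).1 (by simp))
      have h3 := hga p y₁ hp hy1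
      have h4 : g y₁ ≠ 0 := by
        intro h5
        rw [h5, norm_zero, mul_zero] at h3
        exact hy (norm_le_zero_iff.1 h3)
      have h5 : m = x * y₁ := by
        have := hxy.1
        have h6 : p * (x * y₁) = p * m := by rw [← this]; ring
        exact (Nat.eq_of_mul_eq_mul_left hp.pos h6).symm
      rw [h5, huniq x y₁ hx h4, norm_mul]
      calc ‖f x‖ * ‖g (p * y₁)‖ ≤ ‖f x‖ * (‖a p‖ * ‖g y₁‖) := by gcongr
        _ = _ := by ring

open Pool.Agent.Q14.UM in
theorem qb0 (D : ℝ) (a : ℕ → ℂ) (j : ℕ) : (∀ n, qb D a (fun _ => 0) j n ≠ 0 → n.Prime) ∧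
    (∀ n, ‖qb D a (fun _ => 0) j n‖ ≤ ‖a n‖) := by
  have h : ∀ n, qb D a (fun _ => 0) j n = 0 ∨ (n ∈ PB D j ∧ qb D a (fun _ => 0) j n = a n) := by
    intro n
    unfold qb
    by_cases h1 : n ∈ PB D j
    · right
      refine ⟨h1, ?_⟩
      rw [if_pos h1]
      simp
    · left
      rw [if_neg h1]
      simp
  constructor
  · intro n hn
    rcases h n with h1 | ⟨h1, -⟩
    · exact absurd h1 hn
    · exact (mem_PB h1).1
  · intro n
    rcases h n with h1 | ⟨-, h1⟩
    · rw [h1, norm_zero]
      exact norm_nonneg _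
    · rw [h1]

open Pool.Agent.Q14.UM in
theorem Gr_eb (D κ : ℝ) (hD : 0 ≤ D) (a : ℕ → ℂ) (J : ℕ) : Gr a (eb D κ a (fun _ => 0) J) := by
  induction J with
  | zero =>
    intro p m hp hm
    unfold eb
    rw [if_neg]
    · rw [norm_zero]
      positivity
    · intro h
      have := hp.one_lt
      have h2 : p ≤ p * m := Nat.le_mul_of_pos_right p hm
      omega
  | succ J ih =>
    refine Gr_cv (P := fun p => p ∈ PB D J) (Q := fun p => ∃ j < J, p ∈ PB D j) ?_ ?_ (SP_eb D κ a _ J) ?_ ih
    · rintro p hp ⟨j, hj, hpj⟩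
      have := PB_disj D hD hp hpj
      omega
    · exact SP_te _ _ (SP_qb D a _ J) (RB' κ J)
    · exact Gr_te _ a (qb0 D a J).1 (qb0 D a J).2 _

end

end Pool.Agent.H510.MB
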