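import Pool.Agent.H510.MB.Mc
import Pool.Graph.R_pool_sql_team_seeded_3997aac3.Q97.UM.Base7

/-!
The approximation of the exponential of a prime sum: the data with the explicit polynomial, and the growth of its coefficients.
-/

set_option autoImplicit false

open Complex Filter Topology MeasureTheory Finset
open Pool.Agent.Q97.UM (dp N2 cv cvp te XB PB qb RB' eb JB EKd PA EP)

namespace Pool.Agent.H510.MB

open Pool.Agent.Q14.UM in
theorem ek2 (A : ℝ) (hA : 1 ≤ A) : ∃ κ : ℝ, 1 ≤ κ ∧ ∀ δ : ℝ, 0 < δ → ∃ C c : ℝ, 0 ≤ C ∧ 0 < c ∧ ∀ᶠ T : ℝ in atTop, ∀ a a2 : ℕ → ℂ,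
    (∀ n, ‖a n‖ ≤ A) → (∀ n, ‖a2 n‖ ≤ A) → 0 ≤ δ * Real.log T ∧
    EKd δ κ C c T a a2 (NB (δ * Real.log T) κ (JB (δ * Real.log T))) (eb (δ * Real.log T) κ a a2 (JB (δ * Real.log T)))
      (JB (δ * Real.log T)) ⌊Real.exp (2 * (δ * Real.log T))⌋₊ (fun j => qb (δ * Real.log T) a a2 j) (fun j => wB κ j) := by
  have hTE : Pool.Agent.Q97.UM.S_TE := t_TE
  have hBM : Pool.Agent.Q97.UM.S_BM := Pool.Agent.Q198.UM.t_BM
  have hd : Pool.Agent.Q97.UM.S_DPM := Pool.Agent.Q84.UM.t_DPM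
  obtain ⟨κ, c, hκ, hc, hEL'⟩ := t_EL hBM A hA
  obtain ⟨C₁, hC₁, hQM'⟩ := t_QM hBM
  refine ⟨κ, hκ, ?_⟩
  intro δ hδ
  refine ⟨max 3 ((C₁ * A ^ 2 * (7 + 20 * κ)) ^ 3 * 600000), c, le_trans (by norm_num) (le_max_left _ _), hc, ?_⟩
  filter_upwards [eventually_ge_atTop (Real.exp (1 / δ)), eventually_ge_atTop 1] with T hT hT1
  intro a a2 ha ha2
  have hT0 : 0 < T := by linarith
  obtain ⟨D, hD⟩ : ∃ D : ℝ, D = δ * Real.log T := ⟨_, rfl⟩
  rw [← hD]
  have hD1 : 1 ≤ D := by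
    have h1 : 1 / δ ≤ Real.log T := (Real.le_log_iff_exp_le hT0).2 hT
    rw [div_le_iff₀ hδ] at h1
    rw [hD]; linarith
  have hD0 : 0 ≤ D := by linarith
  have rp : ∀ x : ℝ, T ^ (x * δ) = Real.exp (x * D) := by
    intro x
    rw [Real.rpow_def_of_pos hT0, hD]; congr 1; ring
  have rp1 : T ^ δ = Real.exp D := by
    have := rp 1
    simpa using this
  have hlen := eb_len D κ a a2 hD0 (JB D)
  have hM₀ : ∀ j, KB' D j ≤ ⌊Real.exp (2 * D)⌋₊ := fun j => KB_le_M D j hD0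
  refine ⟨hD0, ?_⟩
  constructor
  · rw [rp]
    exact NB_le D κ hD0 hκ (JB D)
  · intro n hn
    refine ⟨Nat.one_le_iff_ne_zero.2 (SP_eb D κ a a2 (JB D) n hn).1, ?_⟩
    by_contra h
    exact hn (hlen n (not_le.1 h))
  · rw [rp1]
    exact hEL' κ D a a2 _ le_rfl hD1 ha hlen
  · intro j
    unfold wB
    positivity
  · intro j n hn
    refine ⟨Nat.one_le_iff_ne_zero.2 (SP_qb D a a2 j n hn).1, ?_⟩
    by_contra h
    exact hn (qb_len D a a2 j hD0 n (lt_of_le_of_lt (hM₀ j) (not_le.1 h)))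
  · rw [rp 2]
    exact Nat.floor_le (Real.exp_pos _).le
  · intro t hne
    have h1 := up_bd hTE hd D κ hD1 hκ a a2 t _ hM₀ hne
    rw [rp1]
    have h2 := le_max_left (3 : ℝ) ((C₁ * A ^ 2 * (7 + 20 * κ)) ^ 3 * 600000)
    linarith
  · intro M f hM hMT hf
    have hQM2 : ∀ (j K M : ℕ) (f : ℕ → ℂ), 1 ≤ M → KB' D j ≤ K → (∀ n, M < n → f n = 0) →
        N2 (K * M) (cv (qb D a a2 j) f) ≤ C₁ * A ^ 2 * (Real.exp (j : ℝ) * Real.log (K * M) / D) * N2 M f := by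
      intro j K M f hM hK hf
      exact hQM' D A j K M a a2 f hD1 (by linarith) hM hK ha ha2 hf
    have hM' : (1 : ℝ) ≤ M := by exact_mod_cast hM
    have hM01 : 1 ≤ ⌊Real.exp (2 * D)⌋₊ := (KB_one D 0 hD0).trans (hM₀ 0)
    have hM01' : (1 : ℝ) ≤ (⌊Real.exp (2 * D)⌋₊ : ℝ) := by exact_mod_cast hM01
    have hY : Real.log ((⌊Real.exp (2 * D)⌋₊ : ℝ) ^ 3 * M) ≤ (7 + 20 * κ) * D := by
      rw [Real.log_mul (by positivity) (by positivity), Real.log_pow]
      have h1 : Real.log (⌊Real.exp (2 * D)⌋₊ : ℝ) ≤ 2 * D := by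
        rw [Real.log_le_iff_le_exp (by linarith)]
        exact Nat.floor_le (Real.exp_pos _).le
      have h2 : Real.log (M : ℝ) ≤ (1 + 20 * κ) * D := by
        rw [Real.log_le_iff_le_exp (by linarith), ← rp]
        exact hMT
      push_cast
      linarith
    have h1 := mean_bd A C₁ D κ (7 + 20 * κ) hA hC₁ hD1 hκ a a2 hQM2 _ M hM₀ hM hY (by linarith) f hf (JB D)
    refine h1.trans ?_
    apply mul_le_mul_of_nonneg_right (le_max_right _ _)
    unfold N2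
    positivity

/-- the constant sequence, cut off up to `B` -/
noncomputable def aB (B : ℕ) (lam : ℝ) (n : ℕ) : ℂ := if B < n then (lam : ℂ) else 0

theorem norm_aB (B : ℕ) (lam : ℝ) (n : ℕ) : ‖aB B lam n‖ ≤ |lam| := by
  unfold aB
  split_ifs
  · rw [Complex.norm_real, Real.norm_eq_abs]
  · rw [norm_zero]; exact abs_nonneg _

/-- the polynomial -/
theorem poly (A : ℝ) (hA : 1 ≤ A) : ∃ κ : ℝ, 1 ≤ κ ∧ ∀ (B : ℕ) (δ : ℝ), 0 < δ → δ ≤ 1 → ∃ C c : ℝ, 0 ≤ C ∧ 0 < c ∧ ∀ᶠ T : ℝ in atTop,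
    ∀ lam : ℝ, |lam| ≤ A → ∃ (N : ℕ) (e : ℕ → ℂ) (J M₀ : ℕ) (q : ℕ → ℕ → ℂ) (w : ℕ → ℝ),
      EKd δ κ C c T (aB B lam) (fun _ => 0) N e J M₀ q w ∧ GD A B N e ∧ c * Real.log T ^ (lam ^ 2) ≤ N2 N e := by
  obtain ⟨κ, hκ, h⟩ := ek2 A hA
  refine ⟨κ, hκ, fun B δ hδ hδ1 => ?_⟩
  obtain ⟨C, c, hC, hc, h⟩ := h δ hδ
  obtain ⟨C₄, hC₄, hPL⟩ := Pool.Agent.Q98.UM.prime_lower Pool.Agent.Q149.UM.t_MZ hδ hδ1
  set c' : ℝ := c * Real.exp (-(A ^ 2 * (C₄ + B))) with hc'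
  have hc'c : c' ≤ c := by
    rw [hc']
    have h1 : Real.exp (-(A ^ 2 * (C₄ + B))) ≤ 1 := by
      rw [Real.exp_le_one_iff]
      have : (0 : ℝ) ≤ B := Nat.cast_nonneg B
      have : 0 ≤ A ^ 2 * (C₄ + B) := by positivity
      linarith
    nlinarith
  refine ⟨C, c', hC, by positivity, ?_⟩
  filter_upwards [h, hPL, eventually_ge_atTop (Real.exp 1)] with T h hPL hT lam hlam
  have hA0 : 0 ≤ A := by linarith
  have hT0 : 0 < T := lt_of_lt_of_le (Real.exp_pos 1) hT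
  have hL1 : 1 ≤ Real.log T := (Real.le_log_iff_exp_le hT0).2 hT
  have hL0 : 0 < Real.log T := by linarith
  obtain ⟨hD, hE⟩ := h (aB B lam) (fun _ => 0) (fun n => (norm_aB B lam n).trans hlam) (fun n => by rw [norm_zero]; exact hA0)
  refine ⟨_, _, _, _, _, _, ⟨hE.len, hE.supp, (mul_le_mul_of_nonneg_right hc'c (Real.exp_pos _).le).trans hE.low, hE.wn, hE.qs,
    hE.M0, hE.up, hE.mean⟩, ?_, ?_⟩
  · exact ⟨hE.supp, by
      intro n hn p hp hpn
      obtain ⟨m, rfl⟩ := hpn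
      have hm : 1 ≤ m := Nat.pos_of_ne_zero (by
        rintro rfl
        have := (hE.supp _ hn).1
        omega)
      have h1 := Gr_eb (δ * Real.log T) κ hD (aB B lam) (JB (δ * Real.log T)) p m hp hm
      by_contra hcon
      have h2 : aB B lam p = 0 := by
        unfold aB
        rw [if_neg hcon]
      rw [h2, norm_zero, zero_mul] at h1
      exact hn (norm_le_zero_iff.1 h1), by
      intro p m hp hm
      refine (Gr_eb (δ * Real.log T) κ hD (aB B lam) (JB (δ * Real.log T)) p m hp hm).trans ?_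
      exact mul_le_mul_of_nonneg_right ((norm_aB B lam p).trans hlam) (norm_nonneg _)⟩
  · refine le_trans ?_ hE.low
    set P := (Finset.Icc 1 ⌊T ^ δ⌋₊).filter Nat.Prime with hP
    have e1 : lam ^ 2 * ∑ p ∈ P, (1 : ℝ) / p - A ^ 2 * B ≤ ∑ p ∈ P, ‖aB B lam p‖ ^ 2 / (p : ℝ) := by
      have u1 : lam ^ 2 * ∑ p ∈ P, (1 : ℝ) / p ≤ ∑ p ∈ P, ‖aB B lam p‖ ^ 2 / (p : ℝ) + ∑ p ∈ P, (if p ≤ B then A ^ 2 else 0) := by
        rw [Finset.mul_sum, ← Finset.sum_add_distrib]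
        refine Finset.sum_le_sum fun p hp => ?_
        rw [hP, Finset.mem_filter, Finset.mem_Icc] at hp
        have hp1 : (1 : ℝ) ≤ p := by exact_mod_cast hp.1.1
        unfold aB
        by_cases h1 : B < p
        · rw [if_pos h1, if_neg (not_le.2 h1), Complex.norm_real, Real.norm_eq_abs, sq_abs]
          apply le_of_eq
          ring
        · rw [if_neg h1, if_pos (not_lt.1 h1), norm_zero]
          have h2 : lam ^ 2 ≤ A ^ 2 := by
            rw [← sq_abs lam]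
            exact pow_le_pow_left₀ (abs_nonneg _) hlam 2
          have h3 : lam ^ 2 * (1 / (p : ℝ)) ≤ lam ^ 2 * 1 := by
            apply mul_le_mul_of_nonneg_left _ (sq_nonneg _)
            rw [div_le_one (by linarith)]
            exact hp1
          have h4 : (0 : ℝ) ^ 2 / (p : ℝ) = 0 := by simp
          rw [h4]
          linarith
      have u2 : ∑ p ∈ P, (if p ≤ B then A ^ 2 else 0) ≤ A ^ 2 * B := by
        rw [← Finset.sum_filter, Finset.sum_const, nsmul_eq_mul, mul_comm]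
        apply mul_le_mul_of_nonneg_left _ (sq_nonneg _)
        have h1 : (P.filter fun p => p ≤ B) ⊆ Finset.Icc 1 B := by
          intro p hp
          rw [Finset.mem_filter, hP, Finset.mem_filter, Finset.mem_Icc] at hp
          exact Finset.mem_Icc.2 ⟨hp.1.1.1, hp.2⟩
        have h2 := Finset.card_le_card h1
        rw [Nat.card_Icc] at h2
        exact_mod_cast h2.trans (by omega)
      linarith
    have e2 : Real.log T ^ (lam ^ 2) = Real.exp (lam ^ 2 * Real.log (Real.log T)) := by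
      rw [Real.rpow_def_of_pos hL0, mul_comm]
    have hlam2 : lam ^ 2 ≤ A ^ 2 := by
      rw [← sq_abs lam]
      exact pow_le_pow_left₀ (abs_nonneg _) hlam 2
    have e3 : lam ^ 2 * Real.log (Real.log T) - A ^ 2 * (C₄ + B) ≤ ∑ p ∈ P, ‖aB B lam p‖ ^ 2 / (p : ℝ) := by
      have u1 := mul_le_mul_of_nonneg_left hPL (sq_nonneg lam)
      have u2 := mul_le_mul_of_nonneg_right hlam2 hC₄
      have u3 : A ^ 2 * (C₄ + B) = A ^ 2 * C₄ + A ^ 2 * B := by ring
      rw [u3]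
      have u4 : lam ^ 2 * (Real.log (Real.log T) - C₄) = lam ^ 2 * Real.log (Real.log T) - lam ^ 2 * C₄ := by ring
      rw [u4] at u1
      linarith
    calc c' * Real.log T ^ (lam ^ 2) = c * Real.exp (lam ^ 2 * Real.log (Real.log T) - A ^ 2 * (C₄ + B)) := by
          rw [hc', e2, Real.exp_sub, Real.exp_neg]
          ring
      _ ≤ _ := mul_le_mul_of_nonneg_left (Real.exp_le_exp.mpr e3) hc.le

end Pool.Agent.H510.MB
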