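import Pool.Agent.H510.MB.Md

/-!
Lower bounds for the moments of an approximable function in a class, relative to a family of measures.
-/

set_option autoImplicit false

open Complex Filter Topology MeasureTheory Finset
open scoped ENNReal
open Pool.Agent.Q97.UM (dp N2 cv EKd PA EP)
open Pool.Agent.Q98.UM (S3)

namespace Pool.Agent.H510.MB

open Pool.Agent.H510.UZ Pool.Agent.H510.PC Pool.Agent.H510.EX Pool.Agent.H510.SM

theorem dp_sqc (X : ℕ) (t : ℝ) : dp (X ^ 2) (sqc X) t = ∑ p ∈ (Finset.Icc 1 X).filter Nat.Prime, ((p : ℂ) ^ (-(1 / 2 + t * I))) ^ 2 := by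
  unfold dp
  have h1 : ∑ n ∈ Finset.Icc 1 (X ^ 2), sqc X n * (n : ℂ) ^ (-(1 / 2 + t * I)) =
      ∑ n ∈ ((Finset.Icc 1 X).filter Nat.Prime).image (fun p => p ^ 2), sqc X n * (n : ℂ) ^ (-(1 / 2 + t * I)) := by
    symm
    apply Finset.sum_subset
    · intro n hn
      rw [Finset.mem_image] at hn
      obtain ⟨p, hp, rfl⟩ := hn
      rw [Finset.mem_filter, Finset.mem_Icc] at hp
      rw [Finset.mem_Icc]
      exact ⟨Nat.one_le_pow _ _ hp.1.1, Nat.pow_le_pow_left hp.1.2 2⟩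
    · intro n _ hn
      have : sqc X n = 0 := by
        by_contra h
        obtain ⟨p, hp, hpX, rfl⟩ := sqc_supp X n h
        exact hn (Finset.mem_image.2 ⟨p, Finset.mem_filter.2 ⟨Finset.mem_Icc.2 ⟨hp.one_lt.le, hpX⟩, hp⟩, rfl⟩)
      rw [this, zero_mul]
  rw [h1, Finset.sum_image (by
    intro x _ y _ hxy
    exact Nat.pow_left_injective (n := 2) (by norm_num) hxy)]
  refine Finset.sum_congr rfl fun p hp => ?_
  rw [Finset.mem_filter, Finset.mem_Icc] at hp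
  rw [sqc_sq X p hp.2 hp.1.2, one_mul, ← Complex.cpow_nat_mul]
  push_cast
  rw [← Complex.natCast_cpow_natCast_mul]
  norm_num

theorem PA_aB (B : ℕ) (lam : ℝ) (X : ℕ) (t : ℝ) :
    (PA X (aB B lam) (fun _ => 0) t).re ≤ lam * EP X t + |lam| * (2 * S3 + B + ‖dp (X ^ 2) (sqc X) t‖ / 2) := by
  set P := (Finset.Icc 1 X).filter Nat.Prime with hP
  set z : ℕ → ℂ := fun p => (p : ℂ) ^ (-(1 / 2 + t * I)) with hz
  have hEP := Pool.Agent.Q98.UM.EP_approx X t
  have h1 : PA X (aB B lam) (fun _ => 0) t = (lam : ℂ) * ∑ p ∈ P, z p - (lam : ℂ) * ∑ p ∈ P.filter (fun p => p ≤ B), z p := by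
    unfold PA
    rw [Finset.sum_filter (fun p => p ≤ B) z, Finset.mul_sum, Finset.mul_sum, ← Finset.sum_sub_distrib]
    refine Finset.sum_congr rfl fun p _ => ?_
    unfold aB
    by_cases h : B < p
    · rw [if_pos h, if_neg (not_le.2 h)]
      simp [hz]
    · rw [if_neg h, if_pos (not_lt.1 h)]
      simp
  have h2 : ‖∑ p ∈ P.filter (fun p => p ≤ B), z p‖ ≤ B := by
    refine (norm_sum_le _ _).trans ?_
    have h3 : ∀ p ∈ P.filter (fun p => p ≤ B), ‖z p‖ ≤ 1 := by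
      intro p hp
      rw [Finset.mem_filter, hP, Finset.mem_filter, Finset.mem_Icc] at hp
      have hp0 : (0 : ℝ) < p := by exact_mod_cast hp.1.1.1
      simp only [hz]
      rw [Complex.norm_natCast_cpow_of_pos hp.1.1.1]
      apply Real.rpow_le_one_of_one_le_of_nonpos
      · exact_mod_cast hp.1.1.1
      · simp
    refine (Finset.sum_le_sum h3).trans ?_
    rw [Finset.sum_const, nsmul_eq_mul, mul_one]
    have h4 : (P.filter fun p => p ≤ B) ⊆ Finset.Icc 1 B := by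
      intro p hp
      rw [Finset.mem_filter, hP, Finset.mem_filter, Finset.mem_Icc] at hp
      exact Finset.mem_Icc.2 ⟨hp.1.1.1, hp.2⟩
    have h5 := Finset.card_le_card h4
    rw [Nat.card_Icc] at h5
    exact_mod_cast h5.trans (by omega)
  have h3 : ∑ p ∈ P, (z p + z p ^ 2 / 2).re = (∑ p ∈ P, z p).re + (dp (X ^ 2) (sqc X) t).re / 2 := by
    rw [dp_sqc, Complex.re_sum, Complex.re_sum, Finset.sum_div, ← Finset.sum_add_distrib]
    refine Finset.sum_congr rfl fun p _ => ?_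
    rw [Complex.add_re]
    congr 1
    change (z p ^ 2 / 2).re = (z p ^ 2).re / 2
    rw [show (z p ^ 2 / 2 : ℂ) = z p ^ 2 / ((2 : ℝ) : ℂ) by norm_num]
    exact Complex.div_ofReal_re _ _
  have h4 : (∑ p ∈ P, z p).re = ∑ p ∈ P, (z p + z p ^ 2 / 2).re - (dp (X ^ 2) (sqc X) t).re / 2 := by linarith
  have h5 : (PA X (aB B lam) (fun _ => 0) t).re = lam * (∑ p ∈ P, z p).re - lam * (∑ p ∈ P.filter (fun p => p ≤ B), z p).re := by
    rw [h1, Complex.sub_re, Complex.re_ofReal_mul, Complex.re_ofReal_mul]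
  rw [h5]
  set a := (∑ p ∈ P, z p).re - EP X t with ha
  set b := (∑ p ∈ P.filter (fun p => p ≤ B), z p).re with hb
  have h6 : |a - b| ≤ 2 * S3 + B + ‖dp (X ^ 2) (sqc X) t‖ / 2 := by
    have u1 := abs_le.1 hEP
    have u2 := abs_le.1 ((Complex.abs_re_le_norm (∑ p ∈ P.filter (fun p => p ≤ B), z p)).trans h2)
    have u3 := abs_le.1 (Complex.abs_re_le_norm (dp (X ^ 2) (sqc X) t))
    rw [abs_le]
    constructor
    · rw [ha]; linarith [u1.1, u1.2, u2.1, u2.2, u3.1, u3.2]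
    · rw [ha]; linarith [u1.1, u1.2, u2.1, u2.2, u3.1, u3.2]
  have h7 : lam * (a - b) ≤ |lam| * (2 * S3 + B + ‖dp (X ^ 2) (sqc X) t‖ / 2) :=
    (le_abs_self _).trans (by rw [abs_mul]; exact mul_le_mul_of_nonneg_left h6 (abs_nonneg _))
  have h8 : lam * (∑ p ∈ P, z p).re - lam * b = lam * EP X t + lam * (a - b) := by rw [ha]; ring
  rw [h8]
  linarith

theorem mom_low {ν : ℝ → Measure ℝ} {A : ℝ → ℝ} (hS : SF ν A) (U : ℝ → ℝ) (v : ℝ → ℝ) (hU : Measurable U)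
    (hev : ∃ θ₃ δ₀ : ℝ, 0 < θ₃ ∧ 0 < δ₀ ∧ ∀ δ : ℝ, 0 < δ → δ ≤ δ₀ → ∃ C₁ : ℝ, 0 ≤ C₁ ∧ ∀ᶠ T : ℝ in atTop,
      ∀ N : ℕ, (N : ℝ) ≤ T ^ θ₃ → ∀ r : ℕ → ℂ,
        ∫⁻ t, ENNReal.ofReal |U t - v T - EP ⌊T ^ δ⌋₊ t| * ENNReal.ofReal (‖dp N r t‖ ^ 2) ∂(ν T) ≤
          ENNReal.ofReal (C₁ * (A T * N2 N r))) :
    ∀ K : Set ℂ, IsCompact K → (∀ z ∈ K, 1 / 2 < z.re ∧ z.re < 1) → ∀ D : ℝ, 0 ≤ D → ∀ ε : ℝ, 0 < ε → ε ≤ 1 → ∀ A₀ : ℝ, 1 ≤ A₀ →
    ∃ c : ℝ, 0 < c ∧ ∀ᶠ T : ℝ in atTop, ∀ Φ : (ℂ → ℂ) → ℝ, Fun K D Φ → ε * T ≤ ∫ t in T..(2 * T), Φ (zv t) →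
      ∀ lam : ℝ, |lam| ≤ A₀ →
        ENNReal.ofReal (c * (A T * Real.log T ^ (lam ^ 2))) ≤
          ∫⁻ t, ENNReal.ofReal (Φ (zv t)) * ENNReal.ofReal (Real.exp (2 * lam * (U t - v T))) ∂(ν T) := by
  obtain ⟨θu, hθu, hup⟩ := hS.up
  obtain ⟨θ₃, δ₀, hθ₃, hδ₀, hev⟩ := hev
  obtain ⟨κ₁, hκ₁, hgm⟩ := gd_mass hS
  have hDPM : Pool.Agent.Q97.UM.S_DPM := Pool.Agent.Q84.UM.t_DPM
  have hS3 := Pool.Agent.Q98.UM.S3_nonneg
  intro K hK hKs D hD ε hε hε1 A₀ hA₀
  have hA₀0 : 0 ≤ A₀ := by linarith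
  obtain ⟨B₁, θ₁, hθ₁, hgm⟩ := hgm K hK hKs D hD ε hε hε1 A₀ hA₀0
  obtain ⟨κ, hκ, hpoly⟩ := poly A₀ hA₀
  obtain ⟨Cs, hCs, hsq⟩ := GD.sq hA₀0
  obtain ⟨B, hB₁, hBA, hB1⟩ : ∃ B : ℕ, B₁ ≤ B ∧ A₀ ≤ (B : ℝ) ^ ((1 / 4 : ℝ) / 4) ∧ 1 ≤ B := by
    have h5 := (tendsto_rpow_atTop (show (0 : ℝ) < 1 / 4 / 4 by norm_num)).comp tendsto_natCast_atTop_atTop
    obtain ⟨Nc, hNc⟩ := eventually_atTop.1 (h5.eventually_ge_atTop A₀)
    exact ⟨max B₁ (max Nc 1), le_max_left _ _, hNc _ ((le_max_left _ _).trans (le_max_right _ _)),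
      (le_max_right _ _).trans (le_max_right _ _)⟩
  have hκ1 : 0 < 7 + 20 * κ := by linarith
  obtain ⟨δ, hδ, hδ1, hδ2, hδ3, hδ4, hδ5⟩ : ∃ δ : ℝ, 0 < δ ∧ δ ≤ 1 ∧ δ ≤ δ₀ ∧
      (7 + 20 * κ) * δ ≤ θ₁ ∧ (7 + 20 * κ) * δ ≤ θu ∧ (7 + 20 * κ) * δ ≤ θ₃ := by
    set m := min θ₁ (min θu θ₃) with hm
    have hm0 : 0 < m := by positivity
    have h2 : m ≤ θ₁ := min_le_left _ _
    have h3 : m ≤ θu := (min_le_right _ _).trans (min_le_left _ _)
    have h4 : m ≤ θ₃ := (min_le_right _ _).trans (min_le_right _ _)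
    have h5 : (7 + 20 * κ) * min (m / (7 + 20 * κ)) (min 1 δ₀) ≤ m := by
      calc (7 + 20 * κ) * min (m / (7 + 20 * κ)) (min 1 δ₀) ≤ (7 + 20 * κ) * (m / (7 + 20 * κ)) :=
            mul_le_mul_of_nonneg_left (min_le_left _ _) hκ1.le
        _ = m := by field_simp
    exact ⟨min (m / (7 + 20 * κ)) (min 1 δ₀), by positivity, (min_le_right _ _).trans (min_le_left _ _),
      (min_le_right _ _).trans (min_le_right _ _), h5.trans h2, h5.trans h3, h5.trans h4⟩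
  obtain ⟨C₁, hC₁, hev⟩ := hev δ hδ hδ2
  obtain ⟨C₂, c₂, hC₂, hc₂, hpoly⟩ := hpoly B δ hδ hδ1
  obtain ⟨K₂, hK₂⟩ : ∃ K₂ : ℝ, K₂ = 2 * A₀ * (2 * S3 + B) + A₀ + 2 * C₂ := ⟨_, rfl⟩
  have hK₂0 : 0 ≤ K₂ := by rw [hK₂]; positivity
  obtain ⟨K₁, hK₁⟩ : ∃ K₁ : ℝ, K₁ = 2 * A₀ * C₁ + K₂ + A₀ * Cs + 2 * C₂ := ⟨_, rfl⟩
  have hK₁0 : 0 ≤ K₁ := by rw [hK₁]; positivity
  obtain ⟨ρ, hρ⟩ : ∃ ρ : ℝ, ρ = κ₁ * ε := ⟨_, rfl⟩
  have hρ0 : 0 < ρ := by rw [hρ]; positivity
  obtain ⟨k, hk⟩ : ∃ k : ℝ, k = K₁ / ρ := ⟨_, rfl⟩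
  have hk0 : 0 ≤ k := by rw [hk]; positivity
  have hkρ : k * ρ = K₁ := by rw [hk]; field_simp
  refine ⟨Real.exp (-k) * ρ * c₂, by positivity, ?_⟩
  filter_upwards [hup, hev, hgm, hpoly, hS.big, eventually_ge_atTop (Real.exp 1)] with T hup hev hgm hpoly hbig hTe Φ hΦ hmass lam hlam
  have hT1 : 1 ≤ T := by
    have := Real.add_one_le_exp (1 : ℝ)
    linarith
  have hT0 : 0 < T := by linarith
  have hL1 : 1 ≤ Real.log T := (Real.le_log_iff_exp_le hT0).mpr hTe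
  have hL0 : 0 < Real.log T := by linarith
  have hAT : 0 ≤ A T := by linarith
  obtain ⟨N, e, J, M₀, q, w, hd, hGD, hlow⟩ := hpoly lam hlam
  set n2 := N2 N e with hn2
  have hn20 : 0 < n2 := lt_of_lt_of_le (by positivity) hlow
  have hN1 : 1 ≤ N := by
    by_contra hcon
    have hN0 : N = 0 := by omega
    rw [hn2, hN0] at hn20
    unfold N2 at hn20
    simp at hn20
  have hNl : (N : ℝ) ≤ T ^ (20 * κ * δ) := hd.len
  have hNle : (N : ℝ) ≤ T ^ ((7 + 20 * κ) * δ) := hNl.trans (Real.rpow_le_rpow_of_exponent_le hT1 (by nlinarith))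
  set X := ⌊T ^ δ⌋₊ with hX
  have hXle : (X : ℝ) ≤ T ^ δ := Nat.floor_le (by positivity)
  obtain ⟨F, hF⟩ : ∃ F : ℝ → ℂ, F = dp N e := ⟨_, rfl⟩
  obtain ⟨f0, hf0⟩ : ∃ f0 : ℝ → ℝ≥0∞, f0 = fun t => ENNReal.ofReal (‖F t‖ ^ 2) := ⟨_, rfl⟩
  have hf0c : Continuous fun t => ‖F t‖ ^ 2 := by rw [hF]; exact (dp_cont N e).norm.pow 2
  have hf0m : Measurable f0 := by rw [hf0]; exact (ENNReal.continuous_ofReal.comp hf0c).measurable
  -- a
  have ha : ∫⁻ t, f0 t ∂(ν T) ≤ ENNReal.ofReal (A T * n2) := by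
    rw [hf0, hF]
    exact hup N (hNle.trans (Real.rpow_le_rpow_of_exponent_le hT1 hδ4)) e
  -- b
  have hb : ∫⁻ t, ENNReal.ofReal (‖dp (X ^ 2) (sqc X) t‖ ^ 2) * f0 t ∂(ν T) ≤ ENNReal.ofReal (Cs * (A T * n2)) := by
    have e1 : ∀ t, ENNReal.ofReal (‖dp (X ^ 2) (sqc X) t‖ ^ 2) * f0 t = ENNReal.ofReal (‖dp (X ^ 2 * N) (cv (sqc X) e) t‖ ^ 2) := by
      intro t
      rw [hf0, ← ENNReal.ofReal_mul (by positivity), hF, ← mul_pow, ← norm_mul]
      rw [hDPM.1 (X ^ 2) N (sqc X) e t (by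
        intro n hn
        by_contra hcon
        obtain ⟨p, hp, hpX, rfl⟩ := sqc_supp X n hcon
        have := Nat.pow_le_pow_left hpX 2
        omega) (by
        intro n hn
        by_contra hcon
        have := (hGD.supp n hcon).2
        omega)]
    rw [lintegral_congr e1]
    have hlen : ((X ^ 2 * N : ℕ) : ℝ) ≤ T ^ θu := by
      push_cast
      calc (X : ℝ) ^ 2 * N ≤ (T ^ δ) ^ 2 * T ^ (20 * κ * δ) := by gcongr
        _ = T ^ (δ * 2 + 20 * κ * δ) := by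
            rw [← Real.rpow_natCast, ← Real.rpow_mul hT0.le, ← Real.rpow_add hT0]
            push_cast
            rfl
        _ ≤ T ^ θu := Real.rpow_le_rpow_of_exponent_le hT1 (by nlinarith)
    refine (hup _ hlen _).trans (ENNReal.ofReal_le_ofReal ?_)
    calc A T * N2 (X ^ 2 * N) (cv (sqc X) e) ≤ A T * (Cs * n2) := mul_le_mul_of_nonneg_left (hsq hGD hBA hB1 X) hAT
      _ = _ := by ring
  -- c
  have hc : ∀ j, ∫⁻ t, ENNReal.ofReal (‖dp M₀ (q j) t‖ ^ 6) * f0 t ∂(ν T) ≤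
      ENNReal.ofReal (A T * N2 (M₀ ^ 3 * N) (cv (q j) (cv (q j) (cv (q j) e)))) := by
    intro j
    have e1 : ∀ t, ENNReal.ofReal (‖dp M₀ (q j) t‖ ^ 6) * f0 t = ENNReal.ofReal (‖dp (M₀ ^ 3 * N) (cv (q j) (cv (q j) (cv (q j) e))) t‖ ^ 2) := by
      intro t
      rw [hf0, ← ENNReal.ofReal_mul (by positivity), hF, Pool.Agent.Q98.UM.dp_cube hDPM (hd.qs j) hd.supp t]
    rw [lintegral_congr e1]
    apply hup
    push_cast
    calc (M₀ : ℝ) ^ 3 * N ≤ (T ^ (2 * δ)) ^ 3 * T ^ (20 * κ * δ) := by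
          have := hd.M0
          gcongr
      _ = T ^ (2 * δ * 3 + 20 * κ * δ) := by
          rw [← Real.rpow_natCast, ← Real.rpow_mul hT0.le, ← Real.rpow_add hT0]
          push_cast
          rfl
      _ ≤ T ^ θu := Real.rpow_le_rpow_of_exponent_le hT1 (by nlinarith)
  -- d
  have hdd : ∫⁻ t, ENNReal.ofReal |U t - v T - EP X t| * f0 t ∂(ν T) ≤ ENNReal.ofReal (C₁ * (A T * n2)) := by
    rw [hf0, hF]
    exact hev N (hNle.trans (Real.rpow_le_rpow_of_exponent_le hT1 hδ5)) e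
  have hmean := hd.mean N e hN1 (hNl.trans (Real.rpow_le_rpow_of_exponent_le hT1 (by nlinarith))) (fun n hn => by
    by_contra hcon
    have := (hd.supp n hcon).2
    omega)
  -- the error function
  obtain ⟨g, hg⟩ : ∃ g : ℝ → ℝ, g = fun t => 2 * A₀ * |U t - v T - EP X t| + K₂ + A₀ * ‖dp (X ^ 2) (sqc X) t‖ ^ 2 +
      ∑ j ∈ Finset.range J, 2 * w j * ‖dp M₀ (q j) t‖ ^ 6 := ⟨_, rfl⟩
  have hwn := hd.wn
  have hsum0 : ∀ t, 0 ≤ ∑ j ∈ Finset.range J, 2 * w j * ‖dp M₀ (q j) t‖ ^ 6 := fun t =>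
    Finset.sum_nonneg fun j _ => by have := hwn j; positivity
  have hg0 : ∀ t, 0 ≤ g t := by
    intro t
    rw [hg]
    have := hsum0 t
    positivity
  have hgm2 : Measurable g := by
    rw [hg]
    have m1 : Measurable fun t => |U t - v T - EP X t| := (((hU.sub_const _).sub (Pool.Agent.Q247.UM.EP_cont X).measurable)).abs
    have m2 : Measurable fun t => ‖dp (X ^ 2) (sqc X) t‖ ^ 2 := ((dp_cont _ _).norm.pow 2).measurable
    have m3 : Measurable fun t => ∑ j ∈ Finset.range J, 2 * w j * ‖dp M₀ (q j) t‖ ^ 6 :=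
      Finset.measurable_fun_sum _ fun j _ => (((dp_cont _ _).norm.pow 6).measurable).const_mul _
    exact (((m1.const_mul _).add_const _).add (m2.const_mul _)).add m3
  have hgint : ∫⁻ t, ENNReal.ofReal (g t) * f0 t ∂(ν T) ≤ ENNReal.ofReal (K₁ * (A T * n2)) := by
    have e1 : ∀ t, ENNReal.ofReal (g t) * f0 t = ENNReal.ofReal (2 * A₀) * (ENNReal.ofReal |U t - v T - EP X t| * f0 t) +
        ENNReal.ofReal K₂ * f0 t + ENNReal.ofReal A₀ * (ENNReal.ofReal (‖dp (X ^ 2) (sqc X) t‖ ^ 2) * f0 t) +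
        ∑ j ∈ Finset.range J, ENNReal.ofReal (2 * w j) * (ENNReal.ofReal (‖dp M₀ (q j) t‖ ^ 6) * f0 t) := by
      intro t
      rw [hg]
      simp only
      rw [ENNReal.ofReal_add (by positivity) (hsum0 t), ENNReal.ofReal_add (by positivity) (by positivity),
        ENNReal.ofReal_add (by positivity) hK₂0, ENNReal.ofReal_mul (p := 2 * A₀) (by positivity), ENNReal.ofReal_mul (p := A₀) hA₀0,
        ENNReal.ofReal_sum_of_nonneg (fun j _ => by have := hwn j; positivity), add_mul, add_mul, add_mul, Finset.sum_mul]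
      congr 1
      · ring
      · refine Finset.sum_congr rfl fun j _ => ?_
        rw [ENNReal.ofReal_mul (by have := hwn j; positivity)]
        ring
    rw [lintegral_congr e1]
    have m1 : Measurable fun t => ENNReal.ofReal |U t - v T - EP X t| * f0 t :=
      (ENNReal.measurable_ofReal.comp (((hU.sub_const _).sub (Pool.Agent.Q247.UM.EP_cont X).measurable)).abs).mul hf0m
    have m2 : Measurable fun t => ENNReal.ofReal (‖dp (X ^ 2) (sqc X) t‖ ^ 2) * f0 t :=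
      (ENNReal.measurable_ofReal.comp ((dp_cont _ _).norm.pow 2).measurable).mul hf0m
    have m3 : ∀ j, Measurable fun t => ENNReal.ofReal (‖dp M₀ (q j) t‖ ^ 6) * f0 t := fun j =>
      (ENNReal.measurable_ofReal.comp ((dp_cont _ _).norm.pow 6).measurable).mul hf0m
    have m4 : Measurable fun t => ENNReal.ofReal (2 * A₀) * (ENNReal.ofReal |U t - v T - EP X t| * f0 t) + ENNReal.ofReal K₂ * f0 t :=
      (m1.const_mul _).add (hf0m.const_mul _)
    have m5 : Measurable fun t => ENNReal.ofReal (2 * A₀) * (ENNReal.ofReal |U t - v T - EP X t| * f0 t) + ENNReal.ofReal K₂ * f0 t +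
        ENNReal.ofReal A₀ * (ENNReal.ofReal (‖dp (X ^ 2) (sqc X) t‖ ^ 2) * f0 t) := m4.add (m2.const_mul _)
    rw [lintegral_add_left m5, lintegral_add_left m4, lintegral_add_left (m1.const_mul _),
      lintegral_const_mul _ m1, lintegral_const_mul _ hf0m, lintegral_const_mul _ m2,
      lintegral_finsetSum _ (fun j _ => (m3 j).const_mul _)]
    have e2 : ∑ j ∈ Finset.range J, ∫⁻ t, ENNReal.ofReal (2 * w j) * (ENNReal.ofReal (‖dp M₀ (q j) t‖ ^ 6) * f0 t) ∂(ν T) ≤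
        ENNReal.ofReal (2 * C₂ * (A T * n2)) := by
      calc ∑ j ∈ Finset.range J, ∫⁻ t, ENNReal.ofReal (2 * w j) * (ENNReal.ofReal (‖dp M₀ (q j) t‖ ^ 6) * f0 t) ∂(ν T)
          ≤ ∑ j ∈ Finset.range J, ENNReal.ofReal (2 * w j * (A T * N2 (M₀ ^ 3 * N) (cv (q j) (cv (q j) (cv (q j) e))))) := by
            refine Finset.sum_le_sum fun j _ => ?_
            rw [lintegral_const_mul _ (m3 j), ENNReal.ofReal_mul (p := 2 * w j) (by have := hwn j; positivity)]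
            exact mul_le_mul_right (hc j) _
        _ = ENNReal.ofReal (∑ j ∈ Finset.range J, 2 * w j * (A T * N2 (M₀ ^ 3 * N) (cv (q j) (cv (q j) (cv (q j) e))))) := by
            rw [ENNReal.ofReal_sum_of_nonneg]
            intro j _
            have := hwn j
            have := Pool.Agent.Q97.UM.N2_nonneg (M₀ ^ 3 * N) (cv (q j) (cv (q j) (cv (q j) e)))
            positivity
        _ ≤ _ := by
            apply ENNReal.ofReal_le_ofReal
            calc ∑ j ∈ Finset.range J, 2 * w j * (A T * N2 (M₀ ^ 3 * N) (cv (q j) (cv (q j) (cv (q j) e))))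
                = 2 * A T * ∑ j ∈ Finset.range J, w j * N2 (M₀ ^ 3 * N) (cv (q j) (cv (q j) (cv (q j) e))) := by
                  rw [Finset.mul_sum]
                  refine Finset.sum_congr rfl fun j _ => ?_
                  ring
              _ ≤ 2 * A T * (C₂ * n2) := mul_le_mul_of_nonneg_left hmean (by positivity)
              _ = _ := by ring
    calc _ ≤ ENNReal.ofReal (2 * A₀) * ENNReal.ofReal (C₁ * (A T * n2)) + ENNReal.ofReal K₂ * ENNReal.ofReal (A T * n2) +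
          ENNReal.ofReal A₀ * ENNReal.ofReal (Cs * (A T * n2)) + ENNReal.ofReal (2 * C₂ * (A T * n2)) := by
          gcongr
      _ = ENNReal.ofReal (K₁ * (A T * n2)) := by
          rw [← ENNReal.ofReal_mul (by positivity), ← ENNReal.ofReal_mul hK₂0, ← ENNReal.ofReal_mul hA₀0,
            ← ENNReal.ofReal_add (by positivity) (by positivity), ← ENNReal.ofReal_add (by positivity) (by positivity),
            ← ENNReal.ofReal_add (by positivity) (by positivity), hK₁]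
          congr 1
          ring
  -- the pointwise inequality
  have hpt : ∀ t, ENNReal.ofReal (Real.exp (-k) * (1 + k)) * (ENNReal.ofReal (Φ (zv t)) * f0 t) ≤
      ENNReal.ofReal (Φ (zv t)) * ENNReal.ofReal (Real.exp (2 * lam * (U t - v T))) +
        ENNReal.ofReal (Real.exp (-k)) * (ENNReal.ofReal (g t) * f0 t) := by
    intro t
    have hΦ0 := hΦ.nonneg (zv t)
    have hΦ1 := hΦ.le_one (zv t)
    have hgt := hg0 t
    rw [hf0]
    simp only
    rw [← ENNReal.ofReal_mul hΦ0, ← ENNReal.ofReal_mul (by positivity), ← ENNReal.ofReal_mul hΦ0, ← ENNReal.ofReal_mul hgt,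
      ← ENNReal.ofReal_mul (by positivity), ← ENNReal.ofReal_add (by positivity) (by positivity)]
    apply ENNReal.ofReal_le_ofReal
    by_cases hF0 : F t = 0
    · rw [hF0, norm_zero]
      have h0 : 0 ≤ Φ (zv t) * Real.exp (2 * lam * (U t - v T)) := by positivity
      simpa using h0
    · have hne : dp N e t ≠ 0 := by rw [hF] at hF0; exact hF0
      have hFp : 0 < ‖F t‖ := norm_pos_iff.2 hF0
      have hh : -g t ≤ 2 * lam * (U t - v T) - 2 * Real.log ‖F t‖ := by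
        have u1 := hd.up t hne
        have u2 := PA_aB B lam X t
        rw [← hF] at u1
        have v1 : -(|lam| * |U t - v T - EP X t|) ≤ lam * (U t - v T - EP X t) := by
          rw [← abs_mul]
          exact neg_abs_le _
        have v2 : |lam| * |U t - v T - EP X t| ≤ A₀ * |U t - v T - EP X t| := mul_le_mul_of_nonneg_right hlam (abs_nonneg _)
        have v3 : ‖dp (X ^ 2) (sqc X) t‖ ≤ 1 + ‖dp (X ^ 2) (sqc X) t‖ ^ 2 := by
          nlinarith [sq_nonneg (‖dp (X ^ 2) (sqc X) t‖ - 1), norm_nonneg (dp (X ^ 2) (sqc X) t)]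
        have v4 : |lam| * (2 * S3 + B + ‖dp (X ^ 2) (sqc X) t‖ / 2) ≤ A₀ * (2 * S3 + B + (1 + ‖dp (X ^ 2) (sqc X) t‖ ^ 2) / 2) := by
          gcongr
        have v5 : ∑ j ∈ Finset.range J, 2 * w j * ‖dp M₀ (q j) t‖ ^ 6 = 2 * ∑ j ∈ Finset.range J, w j * ‖dp M₀ (q j) t‖ ^ 6 := by
          rw [Finset.mul_sum]
          exact Finset.sum_congr rfl fun j _ => by ring
        rw [hg]
        simp only
        rw [v5, hK₂]
        linarith
      have h4 := Pool.Agent.Q98.UM.exp_tangent (K := k) hh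
      have h5 : Real.exp (2 * lam * (U t - v T) - 2 * Real.log ‖F t‖) * ‖F t‖ ^ 2 = Real.exp (2 * lam * (U t - v T)) := by
        have h6 : ‖F t‖ ^ 2 = Real.exp (2 * Real.log ‖F t‖) := by
          rw [two_mul, Real.exp_add, Real.exp_log hFp, sq]
        rw [Real.exp_sub, ← h6]
        field_simp
      have h6 : Real.exp (-k) * (1 + k - g t) * ‖F t‖ ^ 2 ≤ Real.exp (2 * lam * (U t - v T)) := by
        rw [← h5]
        exact mul_le_mul_of_nonneg_right h4 (by positivity)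
      have h7 := mul_le_mul_of_nonneg_left h6 hΦ0
      have h8 : Φ (zv t) * (Real.exp (-k) * (g t * ‖F t‖ ^ 2)) ≤ 1 * (Real.exp (-k) * (g t * ‖F t‖ ^ 2)) :=
        mul_le_mul_of_nonneg_right hΦ1 (by positivity)
      calc Real.exp (-k) * (1 + k) * (Φ (zv t) * ‖F t‖ ^ 2) = Φ (zv t) * (Real.exp (-k) * (1 + k - g t) * ‖F t‖ ^ 2) +
            Φ (zv t) * (Real.exp (-k) * (g t * ‖F t‖ ^ 2)) := by ring
        _ ≤ _ := by linarith
  have hmass2 := hgm Φ hΦ hmass N e (hGD.anti hB₁) (hNle.trans (Real.rpow_le_rpow_of_exponent_le hT1 hδ3))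
  have hΦm : Measurable fun t => ENNReal.ofReal (Φ (zv t)) :=
    (ENNReal.continuous_ofReal.comp (val_cont hK (fun z hz => (hKs z hz).2) hD hΦ)).measurable
  have hint : ENNReal.ofReal (Real.exp (-k) * (1 + k)) * ∫⁻ t, ENNReal.ofReal (Φ (zv t)) * f0 t ∂(ν T) ≤
      ∫⁻ t, ENNReal.ofReal (Φ (zv t)) * ENNReal.ofReal (Real.exp (2 * lam * (U t - v T))) ∂(ν T) +
        ENNReal.ofReal (Real.exp (-k)) * ∫⁻ t, ENNReal.ofReal (g t) * f0 t ∂(ν T) := by
    have m0 : Measurable fun t => ENNReal.ofReal (Φ (zv t)) * f0 t := hΦm.mul hf0m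
    rw [← lintegral_const_mul _ m0]
    refine (lintegral_mono hpt).trans (le_of_eq ?_)
    have m1 : Measurable fun t => ENNReal.ofReal (g t) * f0 t := (ENNReal.measurable_ofReal.comp hgm2).mul hf0m
    have m2 : Measurable fun t => ENNReal.ofReal (Real.exp (-k)) * (ENNReal.ofReal (g t) * f0 t) := m1.const_mul _
    rw [lintegral_add_right _ m2, lintegral_const_mul _ m1]
  have hfin : ENNReal.ofReal (Real.exp (-k) * (1 + k) * (ρ * (A T * n2)) - Real.exp (-k) * (K₁ * (A T * n2))) ≤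
      ∫⁻ t, ENNReal.ofReal (Φ (zv t)) * ENNReal.ofReal (Real.exp (2 * lam * (U t - v T))) ∂(ν T) := by
    rw [ENNReal.ofReal_sub _ (by positivity)]
    refine tsub_le_iff_right.2 ?_
    calc ENNReal.ofReal (Real.exp (-k) * (1 + k) * (ρ * (A T * n2)))
        = ENNReal.ofReal (Real.exp (-k) * (1 + k)) * ENNReal.ofReal (ρ * (A T * n2)) := ENNReal.ofReal_mul (by positivity)
      _ ≤ ENNReal.ofReal (Real.exp (-k) * (1 + k)) * ∫⁻ t, ENNReal.ofReal (Φ (zv t)) * f0 t ∂(ν T) := by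
          apply mul_le_mul_right
          rw [hρ, hf0, hF]
          exact hmass2
      _ ≤ _ := hint
      _ ≤ _ := by
          gcongr
          rw [ENNReal.ofReal_mul (p := Real.exp (-k)) (by positivity)]
          exact mul_le_mul_right hgint _
  refine le_trans (ENNReal.ofReal_le_ofReal ?_) hfin
  have e3 : Real.exp (-k) * (1 + k) * (ρ * (A T * n2)) - Real.exp (-k) * (K₁ * (A T * n2)) = Real.exp (-k) * ρ * (A T * n2) := by
    rw [← hkρ]
    ring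
  rw [e3]
  calc Real.exp (-k) * ρ * c₂ * (A T * Real.log T ^ (lam ^ 2)) = Real.exp (-k) * ρ * (A T * (c₂ * Real.log T ^ (lam ^ 2))) := by ring
    _ ≤ Real.exp (-k) * ρ * (A T * n2) := by gcongr

end Pool.Agent.H510.MB
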