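import Pool.Agent.H510.MB.Me
import Pool.Graph.R_pool_sql_team_seeded_3997aac3.Q97.UM.Jm
import Pool.Graph.R_pool_sql_team_seeded_3997aac3.Q61.UM.SAMPb

/-!
The third family of measures: the heights near the isolated simple zeros.
-/

set_option autoImplicit false

open Complex Filter Topology MeasureTheory
open scoped ENNReal
open Pool.Agent.Q97.UM (dp N2 cv EP ZI mz zt)
open Pool.Agent.Q61.UM (bd)

namespace Pool.Agent.H510.MB

open Pool.Agent.H510.UZ Pool.Agent.H510.PC Pool.Agent.H510.EX Pool.Agent.H510.SM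

/-- the heights of `[T, 2T]` within `r / log T` of an isolated simple zero -/
def NS (d r T : ℝ) : Set ℝ := Set.Icc T (2 * T) ∩ ⋃ s ∈ ZI d T, Set.Icc (s.im - r / Real.log T) (s.im + r / Real.log T)

theorem NS_meas (d r T : ℝ) : MeasurableSet (NS d r T) :=
  measurableSet_Icc.inter (Finset.measurableSet_biUnion _ fun _ _ => measurableSet_Icc)

/-- the third family -/
noncomputable def nuN (d r T : ℝ) : Measure ℝ := volume.restrict (NS d r T)

theorem nuN_le (d r T : ℝ) : nuN d r T ≤ nuL T := Measure.restrict_mono Set.inter_subset_left le_rfl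

theorem gal {N : ℕ} {b : ℕ → ℂ} {lam a h γ : ℝ} (hl : 0 < lam) (hh : 0 ≤ h) (hγ : γ ∈ Set.Icc a (a + h)) :
    h * ‖dp N b γ‖ ^ 2 ≤ (∫ t in a..(a + h), ‖dp N b t‖ ^ 2) +
      h * ∫ t in a..(a + h), (lam * ‖dp N b t‖ ^ 2 + lam⁻¹ * ‖dp N (bd b) t‖ ^ 2) := by
  set g : ℝ → ℝ := fun t => lam * ‖dp N b t‖ ^ 2 + lam⁻¹ * ‖dp N (bd b) t‖ ^ 2 with hg
  have hgc : Continuous g := (((dp_cont N b).norm.pow 2).const_mul _).add (((dp_cont N (bd b)).norm.pow 2).const_mul _)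
  have hg0 : ∀ t, 0 ≤ g t := fun t => by simp only [hg]; positivity
  set G := ∫ t in a..(a + h), g t with hG
  have hG0 : 0 ≤ G := intervalIntegral.integral_nonneg (by linarith) fun t _ => hg0 t
  have h1 : ∀ t ∈ Set.Icc a (a + h), ‖dp N b γ‖ ^ 2 - G ≤ ‖dp N b t‖ ^ 2 := by
    intro t ht
    have h2 := Pool.Agent.Q61.UM.dp_var Pool.Agent.Q84.UM.t_DPM N b hl t γ
    have h3 : |∫ u in t..γ, g u| ≤ |∫ u in a..(a + h), g u| := by
      apply intervalIntegral.abs_integral_mono_interval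
      · rw [Set.uIoc_of_le (show a ≤ a + h by linarith)]
        intro u hu
        rw [Set.mem_uIoc] at hu
        rcases hu with ⟨h4, h5⟩ | ⟨h4, h5⟩
        · exact ⟨lt_of_le_of_lt ht.1 h4, h5.trans hγ.2⟩
        · exact ⟨lt_of_le_of_lt hγ.1 h4, h5.trans ht.2⟩
      · exact Eventually.of_forall hg0
      · exact hgc.intervalIntegrable _ _
    rw [← hG, abs_of_nonneg hG0] at h3
    have h4 := (le_abs_self _).trans (h2.trans h3)
    linarith
  have h2 : ∫ t in a..(a + h), (‖dp N b γ‖ ^ 2 - G) ≤ ∫ t in a..(a + h), ‖dp N b t‖ ^ 2 :=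
    intervalIntegral.integral_mono_on (by linarith) (by simp) (((dp_cont N b).norm.pow 2).intervalIntegrable _ _) h1
  simp only [intervalIntegral.integral_const, smul_eq_mul] at h2
  have h3 : (a + h - a) * (‖dp N b γ‖ ^ 2 - G) = h * ‖dp N b γ‖ ^ 2 - h * G := by ring
  rw [h3] at h2
  linarith

/-- distinct isolated zeros have distant ordinates -/
theorem ZI_sep {d T : ℝ} (hT : 16 ≤ T) (hd1 : d ≤ 1) {s s' : ℂ} (hs : s ∈ ZI d T) (hs' : s' ∈ ZI d T) (hne : s ≠ s') :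
    d / Real.log T ≤ |s.im - s'.im| := by
  rw [Pool.Agent.Q97.UM.mem_ZI_iff hT hd1] at hs hs'
  have h1 := hs.2.2.2.2.2 s' hs'.2.2.2.1 (by rw [hs'.1]; norm_num) (by rw [hs'.1]; norm_num) (Ne.symm hne)
  have h2 : s' - s = ((s'.im - s.im : ℝ) : ℂ) * I := by
    apply Complex.ext
    · simp [hs.1, hs'.1]
    · simp
  rw [h2, norm_mul, Complex.norm_I, mul_one, Complex.norm_real, Real.norm_eq_abs, abs_sub_comm] at h1
  exact h1

theorem low_N {d ρ : ℝ} (hd1 : d ≤ 1) (hρ : 0 < ρ) (hρd : ρ ≤ d / 4) {T lam : ℝ} (hT : 16 ≤ T) (hlam : 0 < lam) (N : ℕ) (b : ℕ → ℂ) :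
    ρ / Real.log T * ∑ s ∈ ZI d T, ‖dp N b s.im‖ ^ 2 ≤ (∫ t in NS d ρ T, ‖dp N b t‖ ^ 2) +
      ρ / Real.log T * ∫ t in T..(2 * T), (lam * ‖dp N b t‖ ^ 2 + lam⁻¹ * ‖dp N (bd b) t‖ ^ 2) := by
  have hT0 : 0 < T := by linarith
  have hL1 : 1 ≤ Real.log T := by
    rw [Real.le_log_iff_exp_le (by linarith)]
    have := Real.exp_one_lt_d9
    linarith
  have hL : 0 < Real.log T := by linarith
  set h := ρ / Real.log T with hh
  have hh0 : 0 < h := by positivity
  have hh1 : h ≤ 1 := by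
    rw [hh, div_le_one hL]
    linarith
  set g : ℝ → ℝ := fun t => lam * ‖dp N b t‖ ^ 2 + lam⁻¹ * ‖dp N (bd b) t‖ ^ 2 with hg
  have hgc : Continuous g := (((dp_cont N b).norm.pow 2).const_mul _).add (((dp_cont N (bd b)).norm.pow 2).const_mul _)
  have hg0 : ∀ t, 0 ≤ g t := fun t => by simp only [hg]; positivity
  have hfc : Continuous fun t => ‖dp N b t‖ ^ 2 := (dp_cont N b).norm.pow 2
  set a : ℂ → ℝ := fun s => if s.im ≤ 3 / 2 * T then s.im else s.im - h with ha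
  have hz : ∀ s ∈ ZI d T, T < s.im ∧ s.im ≤ 2 * T := fun s hs => by
    rw [Pool.Agent.Q97.UM.mem_ZI_iff hT hd1] at hs
    exact ⟨hs.2.1, hs.2.2.1⟩
  have haI : ∀ s, s.im ∈ Set.Icc (a s) (a s + h) := by
    intro s
    simp only [ha]
    split_ifs
    · exact ⟨le_rfl, by linarith⟩
    · exact ⟨by linarith, by linarith⟩
  have haT : ∀ s ∈ ZI d T, T ≤ a s ∧ a s + h ≤ 2 * T := by
    intro s hs
    obtain ⟨h1, h2⟩ := hz s hs
    simp only [ha]
    split_ifs with h3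
    · constructor <;> linarith
    · rw [not_le] at h3
      constructor <;> linarith
  have hdis : Set.PairwiseDisjoint (↑(ZI d T) : Set ℂ) (fun s => Set.Ioc (a s) (a s + h)) := by
    intro s hs s' hs' hne
    rw [Function.onFun, Set.disjoint_left]
    intro t ht ht'
    have h1 := ZI_sep hT hd1 (Finset.mem_coe.1 hs) (Finset.mem_coe.1 hs') hne
    have h2 := haI s
    have h3 := haI s'
    have h4 : |s.im - s'.im| ≤ 2 * h := by
      rw [abs_le]
      constructor <;> linarith [h2.1, h2.2, h3.1, h3.2, ht.1, ht.2, ht'.1, ht'.2]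
    have h5 : 2 * h < d / Real.log T := by
      rw [hh, lt_div_iff₀ hL]
      have : 2 * (ρ / Real.log T) * Real.log T = 2 * ρ := by field_simp
      rw [this]
      linarith
    linarith
  have hsum : ∀ f : ℝ → ℝ, Continuous f → ∑ s ∈ ZI d T, ∫ t in (a s)..(a s + h), f t =
      ∫ t in ⋃ s ∈ ZI d T, Set.Ioc (a s) (a s + h), f t := by
    intro f hf
    rw [integral_biUnion_finset (ZI d T) (fun _ _ => measurableSet_Ioc) hdis (fun s _ =>
      (hf.continuousOn.integrableOn_Icc (a := a s) (b := a s + h)).mono_set Set.Ioc_subset_Icc_self)]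
    refine Finset.sum_congr rfl fun s _ => ?_
    rw [intervalIntegral.integral_of_le (by linarith)]
  have h1 : h * ∑ s ∈ ZI d T, ‖dp N b s.im‖ ^ 2 ≤ (∑ s ∈ ZI d T, ∫ t in (a s)..(a s + h), ‖dp N b t‖ ^ 2) +
      h * ∑ s ∈ ZI d T, ∫ t in (a s)..(a s + h), g t := by
    rw [Finset.mul_sum, Finset.mul_sum, ← Finset.sum_add_distrib]
    exact Finset.sum_le_sum fun s _ => gal hlam hh0.le (haI s)
  rw [hsum _ hfc, hsum _ hgc] at h1
  have h2 : ∫ t in ⋃ s ∈ ZI d T, Set.Ioc (a s) (a s + h), ‖dp N b t‖ ^ 2 ≤ ∫ t in NS d ρ T, ‖dp N b t‖ ^ 2 := by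
    apply setIntegral_mono_set
    · exact (hfc.continuousOn.integrableOn_Icc (a := T) (b := 2 * T)).mono_set Set.inter_subset_left
    · exact Eventually.of_forall fun t => by positivity
    · apply LE.le.eventuallyLE
      intro t ht
      rw [Set.mem_iUnion₂] at ht
      obtain ⟨s, hs, ht⟩ := ht
      obtain ⟨h3, h4⟩ := haT s hs
      have h5 := haI s
      refine ⟨⟨by linarith [ht.1], by linarith [ht.2]⟩, Set.mem_iUnion₂.2 ⟨s, hs, ?_⟩⟩
      constructor
      · have : s.im ≤ a s + h := h5.2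
        change s.im - h ≤ t
        linarith [ht.1]
      · have : a s ≤ s.im := h5.1
        change t ≤ s.im + h
        linarith [ht.2]
  have h3 : ∫ t in ⋃ s ∈ ZI d T, Set.Ioc (a s) (a s + h), g t ≤ ∫ t in T..(2 * T), g t := by
    rw [intervalIntegral.integral_of_le (by linarith)]
    apply setIntegral_mono_set
    · exact (hgc.continuousOn.integrableOn_Icc (a := T) (b := 2 * T)).mono_set Set.Ioc_subset_Icc_self
    · exact Eventually.of_forall hg0
    · apply LE.le.eventuallyLE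
      intro t ht
      rw [Set.mem_iUnion₂] at ht
      obtain ⟨s, hs, ht⟩ := ht
      obtain ⟨h3, h4⟩ := haT s hs
      exact ⟨by linarith [ht.1], by linarith [ht.2]⟩
  have h4 : h * ∫ t in ⋃ s ∈ ZI d T, Set.Ioc (a s) (a s + h), g t ≤ h * ∫ t in T..(2 * T), g t := mul_le_mul_of_nonneg_left h3 hh0.le
  linarith

theorem NS_mono {d r r' T : ℝ} (hT : 1 ≤ T) (h : r ≤ r') : NS d r T ⊆ NS d r' T := by
  rintro t ⟨h1, h2⟩
  refine ⟨h1, ?_⟩
  rw [Set.mem_iUnion₂] at h2 ⊢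
  obtain ⟨s, hs, h3, h4⟩ := h2
  have hL : 0 ≤ Real.log T := Real.log_nonneg hT
  have h5 : r / Real.log T ≤ r' / Real.log T := div_le_div_of_nonneg_right h hL
  exact ⟨s, hs, by linarith, by linarith⟩

theorem SF_N {d r : ℝ} (hd : 0 < d) (hd1 : d ≤ 1) (hr : 0 < r) (hZ : SF (nuZ d) (fun T => 2 * (Real.log T * T))) :
    SF (nuN d r) (fun T => 2 * T) where
  fin T := by
    have h1 : nuN d r T Set.univ < ⊤ := lt_of_le_of_lt (nuN_le d r T Set.univ) (by
      have := SF_L.fin T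
      exact measure_lt_top _ _)
    exact ⟨h1⟩
  big := SF_L.big
  up := by
    obtain ⟨θ, hθ, h⟩ := SF_L.up
    refine ⟨θ, hθ, ?_⟩
    filter_upwards [h] with T h M hM b
    exact (lintegral_mono' (nuN_le d r T) le_rfl).trans (h M hM b)
  low := by
    obtain ⟨θZ, κZ, hθZ, hκZ, hκZ1, h⟩ := hZ.low
    obtain ⟨ρ, hρ⟩ : ∃ ρ : ℝ, ρ = min r (d / 4) := ⟨_, rfl⟩
    have hρ0 : 0 < ρ := by rw [hρ]; positivity
    have hρd : ρ ≤ d / 4 := by rw [hρ]; exact min_le_right _ _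
    have hρr : ρ ≤ r := by rw [hρ]; exact min_le_left _ _
    obtain ⟨θ, hθ⟩ : ∃ θ : ℝ, θ = min θZ (min (1 / 4) (κZ / 4)) := ⟨_, rfl⟩
    have hθ0 : 0 < θ := by rw [hθ]; positivity
    have hθ1 : θ ≤ θZ := by rw [hθ]; exact min_le_left _ _
    have hθ2 : θ ≤ 1 / 4 := by rw [hθ]; exact (min_le_right _ _).trans (min_le_left _ _)
    have hθ3 : θ ≤ κZ / 4 := by rw [hθ]; exact (min_le_right _ _).trans (min_le_right _ _)
    refine ⟨θ, ρ * κZ / 2, hθ0, by positivity, by nlinarith, ?_⟩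
    filter_upwards [h, eventually_ge_atTop 16] with T h hT M hM b
    have hT0 : 0 < T := by linarith
    have hT1 : 1 ≤ T := by linarith
    have hL1 : 1 ≤ Real.log T := by
      rw [Real.le_log_iff_exp_le (by linarith)]
      have := Real.exp_one_lt_d9
      linarith
    have hL : 0 < Real.log T := by linarith
    have h1 := h M (hM.trans (Real.rpow_le_rpow_of_exponent_le hT1 hθ1)) b
    rw [lint_Z _ (fun t => by positivity)] at h1
    have hn2 : 0 ≤ N2 M b := Pool.Agent.Q97.UM.N2_nonneg M b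
    have h2 : κZ * (2 * (Real.log T * T) * N2 M b) ≤ ∑ s ∈ ZI d T, ‖dp M b s.im‖ ^ 2 :=
      (ENNReal.ofReal_le_ofReal_iff (Finset.sum_nonneg fun s _ => by positivity)).1 h1
    have hM4 : (M : ℝ) ≤ T ^ (1 / 4 : ℝ) := hM.trans (Real.rpow_le_rpow_of_exponent_le hT1 hθ2)
    set lam := θ * Real.log T with hlam
    have hlam0 : 0 < lam := by positivity
    have h3 := low_N hd1 hρ0 hρd hT hlam0 M b
    have hfc : ∀ c : ℕ → ℂ, Continuous fun t => ‖dp M c t‖ ^ 2 := fun c => (dp_cont M c).norm.pow 2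
    have h4 : ∫ t in T..(2 * T), (lam * ‖dp M b t‖ ^ 2 + lam⁻¹ * ‖dp M (bd b) t‖ ^ 2) ≤ 4 * θ * Real.log T * T * N2 M b := by
      rw [intervalIntegral.integral_add (((hfc b).const_mul _).intervalIntegrable _ _) (((hfc (bd b)).const_mul _).intervalIntegrable _ _),
        intervalIntegral.integral_const_mul, intervalIntegral.integral_const_mul]
      have u1 := (Pool.Agent.Q84.UM.t_MVL T hT M hM4 b).2
      have u2 := (Pool.Agent.Q84.UM.t_MVL T hT M hM4 (bd b)).2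
      have u3 := Pool.Agent.Q61.UM.N2_bd M b
      have u4 : Real.log M ≤ lam := by
        by_cases hM0 : M = 0
        · rw [hM0]
          simp
          positivity
        · have hMp : (0 : ℝ) < M := by exact_mod_cast Nat.pos_of_ne_zero hM0
          calc Real.log M ≤ Real.log (T ^ θ) := Real.log_le_log hMp hM
            _ = lam := Real.log_rpow hT0 θ
      have u5 : 0 ≤ Real.log M := Real.log_natCast_nonneg M
      have u6 : Real.log M ^ 2 ≤ lam ^ 2 := pow_le_pow_left₀ u5 u4 2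
      have u7 : N2 M (bd b) ≤ lam ^ 2 * N2 M b := u3.trans (mul_le_mul_of_nonneg_right u6 hn2)
      calc lam * (∫ t in T..(2 * T), ‖dp M b t‖ ^ 2) + lam⁻¹ * ∫ t in T..(2 * T), ‖dp M (bd b) t‖ ^ 2
          ≤ lam * (2 * T * N2 M b) + lam⁻¹ * (2 * T * (lam ^ 2 * N2 M b)) := by gcongr; exact u2.trans (by gcongr)
        _ = 4 * θ * Real.log T * T * N2 M b := by
            rw [hlam]
            field_simp
            ring
    have h5 : ρ / Real.log T * (κZ * (2 * (Real.log T * T) * N2 M b)) ≤ ρ / Real.log T * ∑ s ∈ ZI d T, ‖dp M b s.im‖ ^ 2 := by gcongr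
    have h6 : ρ / Real.log T * ∫ t in T..(2 * T), (lam * ‖dp M b t‖ ^ 2 + lam⁻¹ * ‖dp M (bd b) t‖ ^ 2) ≤
        ρ / Real.log T * (4 * θ * Real.log T * T * N2 M b) := by gcongr
    have e5 : ρ / Real.log T * (κZ * (2 * (Real.log T * T) * N2 M b)) = 2 * (ρ * κZ * (T * N2 M b)) := by field_simp
    have e6 : ρ / Real.log T * (4 * θ * Real.log T * T * N2 M b) = 4 * θ * (ρ * (T * N2 M b)) := by field_simp
    rw [e5] at h5
    rw [e6] at h6
    have e7 : 4 * θ * (ρ * (T * N2 M b)) ≤ κZ * (ρ * (T * N2 M b)) := by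
      apply mul_le_mul_of_nonneg_right (by linarith) (by positivity)
    have h7 : ρ * κZ / 2 * ((fun T => 2 * T) T * N2 M b) ≤ ∫ t in NS d ρ T, ‖dp M b t‖ ^ 2 := by
      have : ρ * κZ / 2 * ((fun T => 2 * T) T * N2 M b) = ρ * κZ * (T * N2 M b) := by ring
      rw [this]
      have e8 : κZ * (ρ * (T * N2 M b)) = ρ * κZ * (T * N2 M b) := by ring
      linarith
    refine (ENNReal.ofReal_le_ofReal h7).trans ?_
    have hIO : IntegrableOn (fun t => ‖dp M b t‖ ^ 2) (NS d ρ T) :=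
      ((hfc b).continuousOn.integrableOn_Icc (a := T) (b := 2 * T)).mono_set Set.inter_subset_left
    rw [ofReal_integral_eq_lintegral_ofReal hIO (Eventually.of_forall fun t => by positivity)]
    unfold nuN
    exact lintegral_mono_set (NS_mono hT1 hρr)
  few := by
    intro a b B h1 h2 h3 hB η hη hη1
    obtain ⟨c, hc, h⟩ := SF_L.few a b B h1 h2 h3 hB η hη hη1
    refine ⟨c, hc, fun δ hδ => ?_⟩
    filter_upwards [h δ hδ] with T h
    exact (nuN_le d r T _).trans h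

theorem ev_N (d r : ℝ) : ∃ θ₃ δ₀ : ℝ, 0 < θ₃ ∧ 0 < δ₀ ∧ ∀ δ : ℝ, 0 < δ → δ ≤ δ₀ → ∃ C₁ : ℝ, 0 ≤ C₁ ∧ ∀ᶠ T : ℝ in atTop,
      ∀ N : ℕ, (N : ℝ) ≤ T ^ θ₃ → ∀ r' : ℕ → ℂ,
        ∫⁻ t, ENNReal.ofReal |Real.log ‖zt t‖ - 0 - EP ⌊T ^ δ⌋₊ t| * ENNReal.ofReal (‖dp N r' t‖ ^ 2) ∂(nuN d r T) ≤
          ENNReal.ofReal (C₁ * ((fun T => 2 * T) T * N2 N r')) := by
  obtain ⟨θ₃, δ₀, h1, h2, h⟩ := ev_L
  refine ⟨θ₃, δ₀, h1, h2, fun δ hδ hδ1 => ?_⟩
  obtain ⟨C₁, hC₁, h⟩ := h δ hδ hδ1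
  refine ⟨C₁, hC₁, ?_⟩
  filter_upwards [h] with T h N hN r'
  exact (lintegral_mono' (nuN_le d r T) le_rfl).trans (h N hN r')

end Pool.Agent.H510.MB
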