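import Pool.Agent.H510.PC.Cls
import Pool.Agent.H510.EX.Fin

/-!
The frequency of a class in the windows `(T, 2T]`.
-/

set_option autoImplicit false

open Complex Filter Topology MeasureTheory ProbabilityTheory
open Pool.Agent
open Pool.Agent.Q97.UM (dp N2 mz)

namespace Pool.Agent.H510.MB

open Pool.Agent.H510.UZ Pool.Agent.H510.PC Pool.Agent.H510.EX

open Classical in
/-- the mean values over the windows converge uniformly -/
theorem mean_lim (K : Set ℂ) (hK : IsCompact K) (hKs : ∀ z ∈ K, 1 / 2 < z.re ∧ z.re < 1) (D : ℝ) (hD : 0 ≤ D) (ε : ℝ) (hε : 0 < ε) :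
    ∃ m : ((ℂ → ℂ) → ℝ) → ℝ, ∀ᶠ T : ℝ in atTop, ∀ Φ : (ℂ → ℂ) → ℝ, Fun K D Φ →
      |(∫ t in T..(2 * T), Φ (zv t)) - T * m Φ| ≤ ε * T := by
  obtain ⟨μ, hμ⟩ : ∃ μ : ℝ, μ = min (1 / 64) (ε / 9) := ⟨_, rfl⟩
  have hμ0 : 0 < μ := by rw [hμ]; positivity
  have hμ1 : μ ≤ 1 / 64 := by rw [hμ]; exact min_le_left _ _
  have hμ2 : 9 * μ ≤ ε := by
    have : μ ≤ ε / 9 := by rw [hμ]; exact min_le_right _ _
    linarith
  obtain ⟨a, b, B, h1, h2, h3, hB, hKr⟩ := ZU.J_f.exists_rectV K hK (fun z hz => hKs z hz)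
  obtain ⟨N, hbad⟩ := few_bad a b B h1 h2 h3 hB (μ / (D + 1)) μ (by positivity) hμ0
  have hK0 : ∀ z ∈ K, 0 ≤ z.re := fun z hz => by linarith [(hKs z hz).1]
  have hK1 : ∀ z ∈ K, z.re < 1 := fun z hz => (hKs z hz).2
  obtain ⟨𝓑, h𝓑⟩ := net2 N (D * N) (by positivity) μ hμ0
  have hch : ∀ Φ : (ℂ → ℂ) → ℝ, ∃ p : ℕ × (ℕ → ℂ), Fun K D Φ → p ∈ 𝓑 ∧ ∀ t : ℝ, |Real.sqrt (FTf N Φ (ph N t)) - ‖dp p.1 p.2 t‖| ≤ μ := by
    intro Φ
    by_cases hΦ : Fun K D Φ
    · have hgc := FTf_cont hK0 hD hΦ N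
      set g : BoundedContinuousFunction (Tor N) ℝ := BoundedContinuousFunction.mkOfCompact ⟨FTf N Φ, hgc⟩ with hg
      have hgl : g ∈ Lip N (D * N) := ⟨fun x y => FTf_lip hK0 hΦ N x y, fun x => ⟨hΦ.nonneg _, hΦ.le_one _⟩⟩
      obtain ⟨p, hp, hclose⟩ := h𝓑 g hgl
      exact ⟨p, fun _ => ⟨hp, hclose⟩⟩
    · exact ⟨(0, 0), fun h => absurd h hΦ⟩
  choose p hp using hch
  refine ⟨fun Φ => N2 (p Φ).1 (p Φ).2, ?_⟩
  have hlen : ∀ᶠ T : ℝ in atTop, ∀ p ∈ 𝓑, ((p.1 : ℕ) : ℝ) ≤ T ^ (1 / 40 : ℝ) := by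
    rw [Filter.eventually_all_finset]
    intro p _
    exact (tendsto_rpow_atTop (by norm_num)).eventually_ge_atTop _
  filter_upwards [hbad, hlen, Pool.Agent.Q97.UM.mv_rel μ hμ0, eventually_ge_atTop 16] with T hbad hlen hMV hT Φ hΦ
  obtain ⟨hb1, -⟩ := hbad
  have hT0 : 0 < T := by linarith
  obtain ⟨hp1, hclose⟩ := hp Φ hΦ
  have hM := hlen _ hp1
  set M := (p Φ).1 with hMd
  set c := (p Φ).2 with hcd
  have a4 := hMV M hM c
  have hgc := FTf_cont hK0 hD hΦ N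
  have hF0 : ∀ θ, 0 ≤ FTf N Φ θ := fun θ => hΦ.nonneg _
  have hF1 : ∀ θ, FTf N Φ θ ≤ 1 := fun θ => hΦ.le_one _
  have hsq : ∀ t : ℝ, |FTf N Φ (ph N t) - ‖dp M c t‖ ^ 2| ≤ 3 * μ := by
    intro t
    have h5 := sq_close hμ0.le (by linarith) (Real.sqrt_nonneg (FTf N Φ (ph N t)))
      (Real.sqrt_le_one.2 (hF1 _)) (norm_nonneg (dp M c t)) (hclose t)
    rwa [Real.sq_sqrt (hF0 _)] at h5
  have hnb : ∀ t : ℝ, ¬ Bad a b B (μ / (D + 1)) N t → |Φ (zv t) - FTf N Φ (ph N t)| ≤ μ := by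
    intro t ht
    have h5 : |Φ (zv t) - FTf N Φ (ph N t)| ≤ D * (μ / (D + 1)) := by
      apply hΦ.lip _ _ _ (by positivity)
      intro z hz
      unfold Bad at ht
      push Not at ht
      have h6 := ht z (hKr hz)
      unfold E at h6
      rw [FT_ph]
      exact h6.le
    refine h5.trans ?_
    rw [mul_div_assoc', div_le_iff₀ (by positivity)]
    nlinarith
  have hb : ∀ t : ℝ, |Φ (zv t) - FTf N Φ (ph N t)| ≤ 1 := by
    intro t
    rw [abs_le]
    constructor <;> linarith [hΦ.nonneg (zv t), hΦ.le_one (zv t), hF0 (ph N t), hF1 (ph N t)]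
  set X := T * N2 M c with hX
  have hX0 : 0 ≤ X := by
    rw [hX]; unfold N2; positivity
  set J := ∫ t in T..(2 * T), ‖dp M c t‖ ^ 2 with hJ
  set K₁ := ∫ t in T..(2 * T), FTf N Φ (ph N t) with hK₁
  set K₂ := ∫ t in T..(2 * T), Φ (zv t) with hK₂
  have hi1 : IntervalIntegrable (fun t => ‖dp M c t‖ ^ 2) volume T (2 * T) :=
    ((dp_cont M c).norm.pow 2).intervalIntegrable _ _
  have hc2 : Continuous fun t : ℝ => FTf N Φ (ph N t) := hgc.comp (ph_cont N)
  have hi2 : IntervalIntegrable (fun t : ℝ => FTf N Φ (ph N t)) volume T (2 * T) := hc2.intervalIntegrable _ _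
  have hc3 : Continuous fun t : ℝ => Φ (zv t) := val_cont hK hK1 hD hΦ
  have hi3 : IntervalIntegrable (fun t : ℝ => Φ (zv t)) volume T (2 * T) := hc3.intervalIntegrable _ _
  have g1 : |J - K₁| ≤ 3 * μ * T := by
    rw [hJ, hK₁, ← intervalIntegral.integral_sub hi1 hi2]
    have h1 := intervalIntegral.norm_integral_le_of_norm_le_const (a := T) (b := 2 * T) (C := 3 * μ)
      (f := fun t => ‖dp M c t‖ ^ 2 - FTf N Φ (ph N t)) (by
        intro t _
        rw [Real.norm_eq_abs, abs_sub_comm]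
        exact hsq t)
    rw [Real.norm_eq_abs] at h1
    refine h1.trans (le_of_eq ?_)
    rw [show 2 * T - T = T by ring, abs_of_pos hT0]
  have g2 : |K₂ - K₁| ≤ 2 * μ * T := by
    rw [hK₂, hK₁, ← intervalIntegral.integral_sub hi3 hi2]
    have h5 : |∫ t in T..(2 * T), (Φ (zv t) - FTf N Φ (ph N t))| ≤ ∫ t in T..(2 * T), |Φ (zv t) - FTf N Φ (ph N t)| :=
      intervalIntegral.abs_integral_le_integral_abs (by linarith)
    refine h5.trans ?_
    have h6 := int_le (fun t => |Φ (zv t) - FTf N Φ (ph N t)|) ((hc3.sub hc2).abs) hb μ hμ0.le T hT0.le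
    refine h6.trans ?_
    have h7 : V T (fun t => μ < |Φ (zv t) - FTf N Φ (ph N t)|) ≤ μ * T := by
      have h8 := ENNReal.toReal_mono ENNReal.ofReal_ne_top hb1
      rw [ENNReal.toReal_ofReal (by positivity)] at h8
      refine le_trans ?_ h8
      apply ENNReal.toReal_mono (V_fin T (Bad a b B (μ / (D + 1)) N))
      apply measure_mono
      rintro t ⟨ht, h9⟩
      refine ⟨ht, ?_⟩
      by_contra hcon
      exact absurd (hnb t hcon) (not_le.2 h9)
    linarith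
  have g3 : K₂ ≤ T ∧ 0 ≤ K₂ := by
    constructor
    · have h5 : K₂ ≤ ∫ t in T..(2 * T), (1 : ℝ) :=
        intervalIntegral.integral_mono (by linarith) hi3 (by simp) (fun t => hΦ.le_one _)
      simp only [intervalIntegral.integral_const, smul_eq_mul, mul_one] at h5
      linarith
    · exact intervalIntegral.integral_nonneg (by linarith) fun t _ => hΦ.nonneg _
  rw [abs_le] at g1 g2 a4
  have hμT : μ * T ≤ 1 / 64 * T := by gcongr
  have hμX : μ * X ≤ 1 / 64 * X := mul_le_mul_of_nonneg_right hμ1 hX0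
  have hX1 : X ≤ 4 * T := by linarith [a4.1, g1.2, g2.1]
  have hμX4 : μ * X ≤ 4 * (μ * T) := by
    have := mul_le_mul_of_nonneg_left hX1 hμ0.le
    linarith
  have h9 : 9 * μ * T ≤ ε * T := by gcongr
  rw [abs_le]
  constructor <;> linarith [a4.1, a4.2, g1.1, g1.2, g2.1, g2.2]

/-- a class of positive density has positive density in all the windows -/
theorem pos_win (K : Set ℂ) (hK : IsCompact K) (hKs : ∀ z ∈ K, 1 / 2 < z.re ∧ z.re < 1) (A : Set (ℂ → ℂ)) (x κ : ℝ) (hκ : 0 < κ)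
    (c : ℝ) (hc : 0 < c) (h : ∃ᶠ U : ℝ in atTop, c * U ≤ Ms 0 U (Near K A x)) :
    ∀ᶠ T : ℝ in atTop, c / 4 * T ≤ Ms T (2 * T) (Near K A (x + κ)) := by
  have hK1 : ∀ z ∈ K, z.re < 1 := fun z hz => (hKs z hz).2
  obtain ⟨m, hm⟩ := mean_lim K hK hKs κ⁻¹ (by positivity) (c / 16) (by positivity)
  have hA := PhiA_fun K hκ A x
  have hcA := val_cont hK hK1 (by positivity) hA
  obtain ⟨T₀, hT₀⟩ := eventually_atTop.1 (hm.and (eventually_ge_atTop (1 : ℝ)))
  have hlow : ∀ T : ℝ, T₀ ≤ T → Ms T (2 * T) (Near K A x) ≤ (m (PhiA K hκ A x) + c / 16) * T := by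
    intro T hT
    obtain ⟨h1, h2⟩ := hT₀ T hT
    have h3 := (abs_le.1 (h1 _ hA)).2
    rw [← V_eq]
    have h4 : V T (Near K A x) ≤ ∫ t in T..(2 * T), PhiA K hκ A x (zv t) := by
      refine (V_mono' T _ _ ?_).trans (int_ge _ hcA (fun t => hA.nonneg _) T (by linarith))
      intro t h4
      rw [PhiA_one hκ h4]
    linarith
  have hup : ∀ T : ℝ, T₀ ≤ T → (m (PhiA K hκ A x) - c / 16) * T ≤ Ms T (2 * T) (Near K A (x + κ)) := by
    intro T hT
    obtain ⟨h1, h2⟩ := hT₀ T hT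
    have h3 := (abs_le.1 (h1 _ hA)).1
    rw [← V_eq]
    have h4 : ∫ t in T..(2 * T), PhiA K hκ A x (zv t) ≤ V T (Near K A (x + κ)) := by
      have h4 := int_le _ hcA (fun t => hA.le_one _) 0 le_rfl T (by linarith)
      rw [zero_mul, zero_add] at h4
      refine h4.trans (V_mono' T _ _ ?_)
      intro t h5
      by_contra h6
      rw [PhiA_zero hκ h6] at h5
      exact lt_irrefl _ h5
    linarith
  have hbig : 5 * c / 16 ≤ m (PhiA K hκ A x) := by
    by_contra hcon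
    push Not at hcon
    obtain ⟨J, hJ⟩ := exists_pow_lt_of_lt_one (show (0 : ℝ) < c / 8 by positivity) (show (1 / 2 : ℝ) < 1 by norm_num)
    obtain ⟨U, h1, h2⟩ := (h.and_eventually (eventually_ge_atTop (max 1 (T₀ * 2 ^ J)))).exists
    have hU1 : 1 ≤ U := (le_max_left _ _).trans h2
    have hU2 : T₀ * 2 ^ J ≤ U := (le_max_right _ _).trans h2
    have h3 := pigeon J U (3 * c / 8) (by linarith) (by positivity) (Near K A x) (by
      intro j hj
      have h4 : T₀ ≤ U / 2 ^ (j + 1) := by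
        rw [le_div_iff₀ (by positivity)]
        rcases le_or_gt T₀ 0 with h5 | h5
        · have : T₀ * 2 ^ (j + 1) ≤ 0 := mul_nonpos_of_nonpos_of_nonneg h5 (by positivity)
          linarith
        · refine le_trans ?_ hU2
          gcongr
          · norm_num
          · omega
      refine (hlow _ h4).trans ?_
      have h5 : 0 ≤ U / 2 ^ (j + 1) := by positivity
      apply mul_le_mul_of_nonneg_right _ h5
      linarith)
    have h4 : U / 2 ^ J ≤ c / 8 * U := by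
      have h5 : U / 2 ^ J = (1 / 2) ^ J * U := by rw [one_div, inv_pow]; field_simp
      rw [h5]
      gcongr
    have h5 : 0 < c * U := by positivity
    linarith
  filter_upwards [eventually_ge_atTop T₀, eventually_ge_atTop (1 : ℝ)] with T h1 h2
  refine le_trans ?_ (hup T h1)
  apply mul_le_mul_of_nonneg_right _ (by linarith)
  linarith

end Pool.Agent.H510.MB
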