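import Pool.Agent.H510.MB.Mf
import Pool.Agent.H510.MB.Mw
import Pool.Agent.H469.F4.UBM4

/-!
Moments in the classes: lower bounds, all real orders; upper bounds for the orders up to four.
-/

set_option autoImplicit false

open Complex Filter Topology MeasureTheory
open scoped ENNReal
open Pool.Agent.Q97.UM (dp N2 cv EP ZI mz zt)

namespace Pool.Agent.H510.MB

open Pool.Agent.H510.UZ Pool.Agent.H510.PC Pool.Agent.H510.EX Pool.Agent.H510.SM

open Classical in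
/-- lower bounds for the moments in all classes -/
theorem cls : ∃ d : ℝ, 0 < d ∧ d ≤ 1 ∧ ∀ K : Set ℂ, IsCompact K → (∀ z ∈ K, 1 / 2 < z.re ∧ z.re < 1) → ∀ κ : ℝ, 0 < κ →
    ∀ ε : ℝ, 0 < ε → ∀ A₀ : ℝ, 1 ≤ A₀ → ∀ r : ℝ, 0 < r → ∃ c : ℝ, 0 < c ∧ ∀ᶠ T : ℝ in atTop, ∀ (A : Set (ℂ → ℂ)) (x : ℝ),
      ε * T ≤ Ms T (2 * T) (Near K A x) → ∀ lam : ℝ, |lam| ≤ A₀ →
        c * T * Real.log T ^ ((lam + 1) ^ 2) ≤ ∑ s ∈ (ZI d T).filter (fun s => Near K A (x + κ) s.im), ‖deriv riemannZeta s‖ ^ (2 * lam) ∧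
        ENNReal.ofReal (c * T * Real.log T ^ (lam ^ 2)) ≤
          ∫⁻ t in {t | Near K A (x + κ) t} ∩ NS d r T, ENNReal.ofReal (‖zt t‖ ^ (2 * lam)) := by
  obtain ⟨d, hd, hd1, hZ⟩ := SF_Z
  refine ⟨d, hd, hd1, ?_⟩
  intro K hK hKs κ hκ ε hε A₀ hA₀ r hr
  set ε₁ := min ε 1 with hε₁
  have hε10 : 0 < ε₁ := by positivity
  obtain ⟨c₁, hc₁, h1⟩ := mom_low hZ _ (fun T => Real.log (Real.log T)) U_Z_meas (ev_Z d hd) K hK hKs κ⁻¹ (by positivity) ε₁ hε10
    (min_le_right _ _) A₀ hA₀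
  obtain ⟨c₂, hc₂, h2⟩ := mom_low (SF_N hd hd1 hr hZ) _ (fun _ => 0) U_L_meas (ev_N d r) K hK hKs κ⁻¹ (by positivity) ε₁ hε10
    (min_le_right _ _) A₀ hA₀
  refine ⟨min (2 * c₁) (2 * c₂), by positivity, ?_⟩
  filter_upwards [h1, h2, eventually_ge_atTop (16 : ℝ)] with T h1 h2 hT A x hM lam hlam
  have hT0 : 0 < T := by linarith
  have hL : 0 < Real.log T := Real.log_pos (by linarith)
  have hA := PhiA_fun K hκ A x
  have hK1 : ∀ z ∈ K, z.re < 1 := fun z hz => (hKs z hz).2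
  have hcA := val_cont hK hK1 (by positivity) hA
  have hmass : ε₁ * T ≤ ∫ t in T..(2 * T), PhiA K hκ A x (zv t) := by
    have h3 : V T (Near K A x) ≤ ∫ t in T..(2 * T), PhiA K hκ A x (zv t) := by
      refine (V_mono' T _ _ ?_).trans (int_ge _ hcA (fun t => hA.nonneg _) T hT0.le)
      intro t h4
      rw [PhiA_one hκ h4]
    rw [V_eq] at h3
    refine le_trans ?_ (hM.trans h3)
    apply mul_le_mul_of_nonneg_right (min_le_left _ _) hT0.le
  constructor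
  · have h3 := h1 _ hA hmass lam hlam
    have h4 : ∀ t : ℝ, ENNReal.ofReal (PhiA K hκ A x (zv t)) *
        ENNReal.ofReal (Real.exp (2 * lam * (Real.log ‖deriv riemannZeta (1 / 2 + t * I)‖ - Real.log (Real.log T)))) =
        ENNReal.ofReal (PhiA K hκ A x (zv t) *
          Real.exp (2 * lam * (Real.log ‖deriv riemannZeta (1 / 2 + t * I)‖ - Real.log (Real.log T)))) := by
      intro t
      rw [ENNReal.ofReal_mul (hA.nonneg _)]
    rw [lintegral_congr h4, lint_Z _ (fun t => mul_nonneg (hA.nonneg _) (Real.exp_pos _).le)] at h3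
    have h5 := (ENNReal.ofReal_le_ofReal_iff (Finset.sum_nonneg fun s _ => mul_nonneg (hA.nonneg _) (Real.exp_pos _).le)).1 h3
    have h6 : ∑ s ∈ ZI d T, PhiA K hκ A x (zv s.im) *
          Real.exp (2 * lam * (Real.log ‖deriv riemannZeta (1 / 2 + s.im * I)‖ - Real.log (Real.log T))) ≤
        Real.log T ^ (-(2 * lam)) * ∑ s ∈ (ZI d T).filter (fun s => Near K A (x + κ) s.im), ‖deriv riemannZeta s‖ ^ (2 * lam) := by
      rw [Finset.sum_filter, Finset.mul_sum]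
      refine Finset.sum_le_sum fun s hs => ?_
      split_ifs with h7
      · obtain ⟨-, hre, hmz⟩ := Pool.Agent.Q98.UM.mem_ZI hs
        have hder : 0 < ‖deriv riemannZeta s‖ := norm_pos_iff.mpr (Pool.Agent.Q98.UM.deriv_ne hre hmz)
        have h8 : (1 / 2 : ℂ) + s.im * I = s := by
          apply Complex.ext
          · simp [hre]
          · simp
        rw [h8]
        have h9 : Real.exp (2 * lam * (Real.log ‖deriv riemannZeta s‖ - Real.log (Real.log T))) =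
            Real.log T ^ (-(2 * lam)) * ‖deriv riemannZeta s‖ ^ (2 * lam) := by
          rw [Real.rpow_def_of_pos hL, Real.rpow_def_of_pos hder, ← Real.exp_add]
          congr 1
          ring
        rw [h9]
        calc _ ≤ 1 * (Real.log T ^ (-(2 * lam)) * ‖deriv riemannZeta s‖ ^ (2 * lam)) :=
              mul_le_mul_of_nonneg_right (hA.le_one _) (by positivity)
          _ = _ := one_mul _
      · rw [PhiA_zero hκ h7]
        simp
    set S := ∑ s ∈ (ZI d T).filter (fun s => Near K A (x + κ) s.im), ‖deriv riemannZeta s‖ ^ (2 * lam) with hS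
    have h7 : c₁ * (2 * (Real.log T * T) * Real.log T ^ (lam ^ 2)) ≤ Real.log T ^ (-(2 * lam)) * S := h5.trans h6
    have h8 : Real.log T ^ (2 * lam) * (c₁ * (2 * (Real.log T * T) * Real.log T ^ (lam ^ 2))) ≤
        Real.log T ^ (2 * lam) * (Real.log T ^ (-(2 * lam)) * S) := mul_le_mul_of_nonneg_left h7 (by positivity)
    have e1 : Real.log T ^ (2 * lam) * (Real.log T ^ (-(2 * lam)) * S) = S := by
      rw [← mul_assoc, ← Real.rpow_add hL]
      simp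
    have e2 : Real.log T ^ (2 * lam) * (c₁ * (2 * (Real.log T * T) * Real.log T ^ (lam ^ 2))) =
        2 * c₁ * T * Real.log T ^ ((lam + 1) ^ 2) := by
      have : Real.log T ^ ((lam + 1) ^ 2) = Real.log T ^ (2 * lam) * Real.log T ^ (lam ^ 2) * Real.log T := by
        rw [← Real.rpow_add hL, ← Real.rpow_add_one hL.ne']
        congr 1
        ring
      rw [this]
      ring
    rw [e1, e2] at h8
    refine le_trans ?_ h8
    gcongr
    exact min_le_left _ _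
  · have h3 := h2 _ hA hmass lam hlam
    have hae : ∀ᵐ t : ℝ ∂(nuN d r T), ENNReal.ofReal (PhiA K hκ A x (zv t)) *
        ENNReal.ofReal (Real.exp (2 * lam * (Real.log ‖zt t‖ - 0))) ≤
        Set.indicator {t | Near K A (x + κ) t} (fun t => ENNReal.ofReal (‖zt t‖ ^ (2 * lam))) t := by
      have h4 : ∀ᵐ t : ℝ, zt t ≠ 0 := by
        have := Pool.Agent.Q98.UM.ae_zt 0
        simpa using this
      unfold nuN
      refine ae_restrict_of_ae ?_
      filter_upwards [h4] with t ht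
      by_cases h5 : Near K A (x + κ) t
      · rw [Set.indicator_of_mem (show t ∈ {t | Near K A (x + κ) t} from h5)]
        have h6 : Real.exp (2 * lam * (Real.log ‖zt t‖ - 0)) = ‖zt t‖ ^ (2 * lam) := by
          rw [Real.rpow_def_of_pos (norm_pos_iff.2 ht)]
          congr 1
          ring
        rw [h6]
        calc _ ≤ 1 * ENNReal.ofReal (‖zt t‖ ^ (2 * lam)) := by
              apply mul_le_mul_left
              rw [← ENNReal.ofReal_one]
              exact ENNReal.ofReal_le_ofReal (hA.le_one _)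
          _ = _ := one_mul _
      · rw [PhiA_zero hκ h5]
        simp
    have h4 : ∫⁻ t in {t | Near K A (x + κ) t} ∩ NS d r T, ENNReal.ofReal (‖zt t‖ ^ (2 * lam)) =
        ∫⁻ t in {t | Near K A (x + κ) t}, ENNReal.ofReal (‖zt t‖ ^ (2 * lam)) ∂(nuN d r T) := by
      unfold nuN
      rw [Measure.restrict_restrict' (NS_meas d r T)]
    rw [h4]
    refine le_trans ?_ (h3.trans ((lintegral_mono_ae hae).trans (lintegral_indicator_le _ _)))
    apply ENNReal.ofReal_le_ofReal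
    have : c₂ * ((fun T => 2 * T) T * Real.log T ^ (lam ^ 2)) = 2 * c₂ * T * Real.log T ^ (lam ^ 2) := by ring
    rw [this]
    gcongr
    exact min_le_right _ _

open Pool.Agent.Q97.UM in
theorem N2_up1 : ∃ κ₁ : ℝ, 4 ≤ κ₁ ∧ ∀ κ δ : ℝ, κ₁ ≤ κ → 0 < δ → δ ≤ 1 → ∃ C : ℝ, 0 ≤ C ∧ ∀ᶠ T : ℝ in atTop, ∀ lam : ℝ, 0 ≤ lam → lam ≤ 2 →
    N2 (M9 (δ * Real.log T) κ) (ebk (δ * Real.log T) κ (fun _ => (lam : ℂ)) (fun _ => (lam : ℂ)) 0 (JB (δ * Real.log T))) ≤
      C * Real.log T ^ (lam ^ 2) := by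
  obtain ⟨κ₀, hκ₀, c, C, hc, hC, h⟩ := b_EN2 2 (by norm_num)
  obtain ⟨C₃, hC₃⟩ := Pool.Agent.Erdos456.Mert.mertens_inv
  refine ⟨κ₀, hκ₀, ?_⟩
  intro κ δ hκ hδ hδ1
  refine ⟨C * Real.exp (4 * |C₃|), by positivity, ?_⟩
  have e1 : ∀ᶠ T : ℝ in atTop, 1 ≤ δ * Real.log T := by
    filter_upwards [Real.tendsto_log_atTop.eventually_ge_atTop (1 / δ)] with T hT
    rw [div_le_iff₀ hδ] at hT
    linarith
  have e2 : ∀ᶠ T : ℝ in atTop, 3 ≤ T ^ δ := (tendsto_rpow_atTop hδ).eventually_ge_atTop 3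
  filter_upwards [e1, e2, eventually_ge_atTop 3] with T hT1 hT2 hT3 lam h0 h1
  have hT0 : 0 < T := by linarith
  have hL0 : 0 < Real.log T := Real.log_pos (by linarith)
  have hb : ∀ n : ℕ, ‖((fun _ => (lam : ℂ)) : ℕ → ℂ) n‖ ≤ 2 := by
    intro n
    rw [Complex.norm_real, Real.norm_eq_abs, abs_of_nonneg h0]
    exact h1
  have h2 := (h κ (δ * Real.log T) (fun _ => (lam : ℂ)) (fun _ => (lam : ℂ)) hκ hT1 hb hb).2
  refine h2.trans ?_
  have hexp : Real.exp (δ * Real.log T) = T ^ δ := by rw [Real.rpow_def_of_pos hT0, mul_comm]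
  rw [hexp, mul_assoc]
  apply mul_le_mul_of_nonneg_left _ hC
  have h3 : ∑ p ∈ (Finset.Icc 1 ⌊T ^ δ⌋₊).filter Nat.Prime, ‖(lam : ℂ)‖ ^ 2 / (p : ℝ) =
      lam ^ 2 * ∑ p ∈ (Finset.Icc 1 ⌊T ^ δ⌋₊).filter Nat.Prime, (1 : ℝ) / p := by
    rw [Finset.mul_sum]
    apply Finset.sum_congr rfl
    intro p _
    rw [Complex.norm_real, Real.norm_eq_abs, sq_abs]
    ring
  rw [h3, Real.rpow_def_of_pos hL0, ← Real.exp_add]
  apply Real.exp_le_exp.2
  have hX3 : 3 ≤ ⌊T ^ δ⌋₊ := Nat.le_floor (by exact_mod_cast hT2)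
  have h4 := (abs_le.1 (hC₃ ⌊T ^ δ⌋₊ hX3)).2
  have h5 : Real.log (Real.log (⌊T ^ δ⌋₊ : ℝ)) ≤ Real.log (Real.log T) := by
    have hX3' : (3 : ℝ) ≤ (⌊T ^ δ⌋₊ : ℝ) := by exact_mod_cast hX3
    have hl : 0 < Real.log (⌊T ^ δ⌋₊ : ℝ) := Real.log_pos (by linarith)
    apply Real.log_le_log hl
    apply Real.log_le_log (by linarith)
    refine (Nat.floor_le (by positivity)).trans ?_
    calc T ^ δ ≤ T ^ (1 : ℝ) := Real.rpow_le_rpow_of_exponent_le (by linarith) hδ1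
      _ = T := Real.rpow_one T
  have h6 : ∑ p ∈ (Finset.Icc 1 ⌊T ^ δ⌋₊).filter Nat.Prime, (1 : ℝ) / p ≤ Real.log (Real.log T) + |C₃| := by
    have := le_abs_self C₃
    linarith
  have h7 : lam ^ 2 ≤ 4 := by nlinarith
  have h8 := mul_le_mul_of_nonneg_left h6 (sq_nonneg lam)
  have h9 : lam ^ 2 * |C₃| ≤ 4 * |C₃| := mul_le_mul_of_nonneg_right h7 (abs_nonneg _)
  linarith

open Pool.Agent.Q97.UM in
/-- upper bound for the moments of order up to four -/
theorem zeta_up : ∃ C : ℝ, 0 ≤ C ∧ ∀ᶠ T : ℝ in atTop, ∀ k : ℝ, 0 ≤ k → k ≤ 2 →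
    ∫ t in T..(2 * T), ‖zt t‖ ^ (2 * k) ≤ C * T * Real.log T ^ (k ^ 2) := by
  obtain ⟨κ₀, hκ₀, h⟩ := Pool.Agent.H469.F4.ubm4 1
  obtain ⟨κ₁, hκ₁, h'⟩ := N2_up1
  obtain ⟨δ₀, hδ₀, h2⟩ := h (max κ₀ κ₁) (le_max_left _ _)
  obtain ⟨θ, C, hθ, hC, h3⟩ := h2 (min δ₀ 1) (by positivity) (min_le_left _ _)
  obtain ⟨C', hC', h4⟩ := h' (max κ₀ κ₁) (min δ₀ 1) (le_max_right _ _) (by positivity) (min_le_right _ _)
  refine ⟨C * C', by positivity, ?_⟩
  filter_upwards [h3, h4, eventually_ge_atTop 3] with T h5 h6 hT k hk0 hk1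
  have hT0 : 0 < T := by linarith
  have hL0 : 0 < Real.log T := Real.log_pos (by linarith)
  have h7 := h5 (fun _ : Fin 1 => k) (fun _ => 0) (fun _ => hk0) (by simpa using hk1) (fun _ => by simp; positivity) 1
    (by rw [Nat.cast_one]; exact Real.one_le_rpow (by linarith) hθ.le) d1 d1_supp
  rw [N2_d1] at h7
  have hap : ∀ β : Fin 1 → ℝ, (∀ j, β j = 0) → ap (fun _ : Fin 1 => k) β = fun _ => (k : ℂ) := by
    intro β hβ
    funext p
    unfold ap
    simp [hβ]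
  rw [hap _ (fun _ => rfl), hap _ (fun _ => by simp)] at h7
  have h8 : ∫ t in T..(2 * T), (∏ j : Fin 1, ‖zt (t + (fun _ : Fin 1 => (0 : ℝ)) j)‖ ^ (2 * (fun _ : Fin 1 => k) j)) * ‖dp 1 d1 t‖ ^ 2 =
      ∫ t in T..(2 * T), ‖zt t‖ ^ (2 * k) := by
    congr 1
    funext t
    rw [dp_d1, norm_one, one_pow, mul_one]
    simp
  rw [h8] at h7
  refine h7.trans ?_
  calc _ ≤ C * T * (C' * Real.log T ^ (k ^ 2)) := mul_le_mul_of_nonneg_left (h6 k hk0 hk1) (by positivity)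
    _ = C * C' * T * Real.log T ^ (k ^ 2) := by ring

end Pool.Agent.H510.MB
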