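import Pool.Agent.H510.MB.Mg
import Pool.Agent.H510.EX.Zd

/-!
Sets which carry a moment of order less than four are not small; the criterion for the Riemann hypothesis.
-/

set_option autoImplicit false

open Complex Filter Topology MeasureTheory
open scoped ENNReal
open Pool.Agent.Q97.UM (zt)

namespace Pool.Agent.H510.MB

open Pool.Agent.H510.UZ Pool.Agent.H510.PC Pool.Agent.H510.EX Pool.Agent.H510.SM

theorem near_mono (K : Set ℂ) (A : Set (ℂ → ℂ)) {x y : ℝ} (h : x ≤ y) (t : ℝ) (hN : Near K A x t) : Near K A y t := by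
  obtain ⟨f, hf, r, hr, h1⟩ := hN
  exact ⟨f, hf, r, lt_of_lt_of_le hr h, h1⟩

theorem pow_split {x M k : ℝ} (hx : 0 ≤ x) (hM : 0 < M) (hk0 : 0 ≤ k) (hk1 : k < 2) :
    x ^ (2 * k) ≤ M ^ (2 * k) + M ^ (2 * k - 4) * x ^ 4 := by
  rcases le_or_gt x M with h | h
  · have h1 : x ^ (2 * k) ≤ M ^ (2 * k) := Real.rpow_le_rpow hx h (by positivity)
    have h2 : 0 ≤ M ^ (2 * k - 4) * x ^ 4 := by positivity
    linarith
  · have hx0 : 0 < x := hM.trans h
    have h1 : x ^ (2 * k) = x ^ (2 * k - 4) * x ^ 4 := by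
      rw [← Real.rpow_natCast, ← Real.rpow_add hx0]
      congr 1
      push_cast
      ring
    have h2 : x ^ (2 * k - 4) ≤ M ^ (2 * k - 4) := Real.rpow_le_rpow_of_nonpos hM h.le (by linarith)
    have h3 : 0 ≤ M ^ (2 * k) := by positivity
    rw [h1]
    have h4 : x ^ (2 * k - 4) * x ^ 4 ≤ M ^ (2 * k - 4) * x ^ 4 := mul_le_mul_of_nonneg_right h2 (by positivity)
    linarith

/-- sets which carry a moment of order less than four are not small -/
theorem not_small {k : ℝ} (hk0 : 0 ≤ k) (hk1 : k < 2) (c : ℝ) (hc : 0 < c) (ε : ℝ) (hε : 0 < ε) : ∀ᶠ T : ℝ in atTop,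
    ∀ P : ℝ → Prop, ENNReal.ofReal (c * T * Real.log T ^ (k ^ 2)) ≤
      ∫⁻ t in {t | t ∈ Set.Icc T (2 * T) ∧ P t}, ENNReal.ofReal (‖zt t‖ ^ (2 * k)) → (2 * T) ^ (1 - ε) ≤ Ms 0 (2 * T) P := by
  obtain ⟨C, hC, hup⟩ := zeta_up
  -- M = (log T) ^ B, (4 - 2 k) B = 5
  obtain ⟨B, hB⟩ : ∃ B : ℝ, B = 5 / (4 - 2 * k) := ⟨_, rfl⟩
  have h1k : 0 < 4 - 2 * k := by linarith
  have hB0 : 0 < B := by rw [hB]; positivity
  have hBk : B * (2 * k - 4) = -5 := by rw [hB]; field_simp; ring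
  have e1 : ∀ᶠ T : ℝ in atTop, 2 * C / c ≤ Real.log T := Real.tendsto_log_atTop.eventually_ge_atTop _
  have e2 : ∀ᶠ T : ℝ in atTop, Real.log T ^ (B * (2 * k)) ≤ c / 8 * (2 * T) ^ ε := by
    have h1 := (isLittleO_log_rpow_rpow_atTop (B * (2 * k)) hε).bound (show 0 < c / 8 by positivity)
    filter_upwards [h1, eventually_ge_atTop 3] with T h1 hT
    have hL : 0 < Real.log T := Real.log_pos (by linarith)
    rw [Real.norm_of_nonneg (by positivity), Real.norm_of_nonneg (by positivity)] at h1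
    refine h1.trans ?_
    have : T ^ ε ≤ (2 * T) ^ ε := Real.rpow_le_rpow (by linarith) (by linarith) hε.le
    gcongr
  filter_upwards [hup, e1, e2, eventually_ge_atTop 3] with T hup e1 e2 hT P hP
  have hT0 : 0 < T := by linarith
  have hL1 : 1 ≤ Real.log T := by
    rw [Real.le_log_iff_exp_le (by linarith)]
    have := Real.exp_one_lt_d9
    linarith
  have hL : 0 < Real.log T := by linarith
  set M := Real.log T ^ B with hM
  have hM0 : 0 < M := by positivity
  have hM1 : M ^ (2 * k) = Real.log T ^ (B * (2 * k)) := by rw [hM, ← Real.rpow_mul hL.le]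
  have hM2 : M ^ (2 * k - 4) = (Real.log T ^ 5)⁻¹ := by
    rw [hM, ← Real.rpow_mul hL.le, hBk, Real.rpow_neg hL.le, show (5 : ℝ) = ((5 : ℕ) : ℝ) by norm_num, Real.rpow_natCast]
  set S := {t | t ∈ Set.Icc T (2 * T) ∧ P t} with hS
  have hSsub : S ⊆ Set.Icc T (2 * T) := fun t ht => ht.1
  have hSf : volume S ≠ ⊤ := ne_top_of_le_ne_top measure_Icc_lt_top.ne (measure_mono hSsub)
  have h2 : ∫⁻ t in S, ENNReal.ofReal (‖zt t‖ ^ (2 * k)) ≤ ENNReal.ofReal (M ^ (2 * k)) * volume S +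
      ENNReal.ofReal (M ^ (2 * k - 4)) * ENNReal.ofReal (∫ t in T..(2 * T), ‖zt t‖ ^ (2 * (2 : ℝ))) := by
    have hm : Measurable fun t => ENNReal.ofReal (‖zt t‖ ^ 4) := (ENNReal.continuous_ofReal.comp (zt_cont.norm.pow 4)).measurable
    calc ∫⁻ t in S, ENNReal.ofReal (‖zt t‖ ^ (2 * k))
        ≤ ∫⁻ t in S, (ENNReal.ofReal (M ^ (2 * k)) + ENNReal.ofReal (M ^ (2 * k - 4)) * ENNReal.ofReal (‖zt t‖ ^ 4)) := by
          apply lintegral_mono
          intro t
          simp only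
          rw [← ENNReal.ofReal_mul (by positivity), ← ENNReal.ofReal_add (by positivity) (by positivity)]
          exact ENNReal.ofReal_le_ofReal (pow_split (norm_nonneg _) hM0 hk0 hk1)
      _ = ENNReal.ofReal (M ^ (2 * k)) * volume S + ENNReal.ofReal (M ^ (2 * k - 4)) * ∫⁻ t in S, ENNReal.ofReal (‖zt t‖ ^ 4) := by
          rw [lintegral_add_left measurable_const, lintegral_const, Measure.restrict_apply_univ, lintegral_const_mul _ hm]
      _ ≤ ENNReal.ofReal (M ^ (2 * k)) * volume S + ENNReal.ofReal (M ^ (2 * k - 4)) * ∫⁻ t in Set.Icc T (2 * T), ENNReal.ofReal (‖zt t‖ ^ 4) := by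
          gcongr
      _ = _ := by
          congr 2
          rw [intervalIntegral.integral_of_le (by linarith), ← integral_Icc_eq_integral_Ioc,
            ofReal_integral_eq_lintegral_ofReal _ (Filter.Eventually.of_forall fun t => by positivity)]
          · apply lintegral_congr
            intro t
            rw [show (2 : ℝ) * 2 = ((4 : ℕ) : ℝ) by norm_num, Real.rpow_natCast]
          · have : (fun t => ‖zt t‖ ^ (2 * (2 : ℝ))) = fun t => ‖zt t‖ ^ 4 := by
              funext t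
              rw [show (2 : ℝ) * 2 = ((4 : ℕ) : ℝ) by norm_num, Real.rpow_natCast]
            rw [this]
            exact (zt_cont.norm.pow 4).continuousOn.integrableOn_Icc
  have h3 := hup 2 zero_le_two le_rfl
  have h4 := hP.trans h2
  have h5 : ENNReal.ofReal (M ^ (2 * k)) * volume S + ENNReal.ofReal (M ^ (2 * k - 4)) * ENNReal.ofReal (∫ t in T..(2 * T), ‖zt t‖ ^ (2 * (2 : ℝ))) ≤
      ENNReal.ofReal (M ^ (2 * k) * (volume S).toReal + M ^ (2 * k - 4) * (C * T * Real.log T ^ ((2 : ℝ) ^ 2))) := by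
    rw [ENNReal.ofReal_add (by positivity) (by positivity), ENNReal.ofReal_mul (p := M ^ (2 * k)) (by positivity),
      ENNReal.ofReal_toReal hSf, ENNReal.ofReal_mul (p := M ^ (2 * k - 4)) (by positivity)]
    gcongr
  have h6 := (ENNReal.ofReal_le_ofReal_iff (by positivity)).1 (h4.trans h5)
  have h7 : c * T ≤ c * T * Real.log T ^ (k ^ 2) := by
    have : 1 ≤ Real.log T ^ (k ^ 2) := Real.one_le_rpow hL1 (by positivity)
    nlinarith [show 0 < c * T by positivity]
  have h8 : M ^ (2 * k - 4) * (C * T * Real.log T ^ ((2 : ℝ) ^ 2)) ≤ c * T / 2 := by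
    rw [hM2, show (2 : ℝ) ^ 2 = ((4 : ℕ) : ℝ) by norm_num, Real.rpow_natCast]
    have h9 : (Real.log T ^ 5)⁻¹ * (C * T * Real.log T ^ 4) = C * T / Real.log T := by field_simp
    rw [h9, div_le_iff₀ hL]
    rw [div_le_iff₀ hc] at e1
    nlinarith
  have h9 : c * T / 2 ≤ M ^ (2 * k) * (volume S).toReal := by
    have g1 : c * T / 2 + c * T / 2 ≤ M ^ (2 * k) * (volume S).toReal + c * T / 2 :=
      calc c * T / 2 + c * T / 2 = c * T := by ring
        _ ≤ _ := h7
        _ ≤ _ := h6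
        _ ≤ _ := by gcongr
    exact le_of_add_le_add_right g1
  rw [hM1] at h9
  have h10 : c * T / 2 ≤ c / 8 * (2 * T) ^ ε * (volume S).toReal := h9.trans (mul_le_mul_of_nonneg_right e2 ENNReal.toReal_nonneg)
  have h11 : 2 * (2 * T) ≤ (2 * T) ^ ε * (volume S).toReal := by
    have : c * (2 * (2 * T)) ≤ c * ((2 * T) ^ ε * (volume S).toReal) := by linarith
    exact le_of_mul_le_mul_left this hc
  have h12 : (volume S).toReal ≤ Ms 0 (2 * T) P := by
    unfold Ms
    apply ENNReal.toReal_mono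
    · exact ne_top_of_le_ne_top measure_Ioc_lt_top.ne (measure_mono (t := Set.Ioc 0 (2 * T)) fun t ht => ht.1)
    · apply measure_mono
      rintro t ⟨ht, hPt⟩
      exact ⟨⟨by linarith [ht.1], ht.2⟩, hPt⟩
  have h13 : (2 * T) ^ (1 - ε) * (2 * T) ^ ε = 2 * T := by
    rw [← Real.rpow_add (by positivity)]
    simp
  have h14 : (2 * T) ^ ε * (2 * T) ^ (1 - ε) ≤ (2 * T) ^ ε * (volume S).toReal := by
    rw [mul_comm, h13]
    linarith
  have h15 := le_of_mul_le_mul_left h14 (by positivity)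
  exact h15.trans h12

/-- the criterion for the Riemann hypothesis -/
theorem rh_of_moment {k : ℝ} (hk0 : 0 ≤ k) (hk1 : k < 2)
    (h : ∀ K : Set ℂ, IsCompact K → (∀ z ∈ K, 1 / 2 < z.re ∧ z.re < 1) → IsConnected Kᶜ → ∀ x : ℝ, 0 < x → ∃ c : ℝ, 0 < c ∧ ∃ᶠ T : ℝ in atTop,
      ENNReal.ofReal (c * T * Real.log T ^ (k ^ 2)) ≤
        ∫⁻ t in {t | t ∈ Set.Icc T (2 * T) ∧ Near K {riemannZeta} x t}, ENNReal.ofReal (‖zt t‖ ^ (2 * k))) : RiemannHypothesis := by
  apply rh_of_self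
  intro K hK hKs hKc x hx ε hε
  obtain ⟨c, hc, h1⟩ := h K hK hKs hKc x hx
  have h2 := h1.and_eventually (not_small hk0 hk1 c hc ε hε)
  have h3 : ∃ᶠ T : ℝ in atTop, (2 * T) ^ (1 - ε) ≤ Ms 0 (2 * T) (Near K {riemannZeta} x) := h2.mono fun T hT => hT.2 _ hT.1
  exact (tendsto_id.const_mul_atTop (show (0 : ℝ) < 2 by norm_num)).frequently h3

end Pool.Agent.H510.MB
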